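import Mathlib
import Pool.Agent.H792R2.SS.KB
import Pool.Agent.H637R4.PO.QT
import Pool.Agent.H637R4.PO.LEB

/-! Distortion and porosity (helper186). -/

set_option autoImplicit false

open Topology Filter Metric Set

namespace Pool.Agent.Q186.AZ

theorem kb : Pool.Agent.H637R4.PO.S_KB := Pool.Agent.H792R2.SS.t_KB

theorem qt : Pool.Agent.H637R4.PO.S_QT := Pool.Agent.H637R4.PO.t_QT kb

/-- distortion of injective functions -/
theorem distort {φ : ℂ → ℂ} {y : ℂ} {δ : ℝ} (hδ : 0 < δ) (hd : DifferentiableOn ℂ φ (ball y δ))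
    (hi : InjOn φ (ball y δ)) {p p' : ℂ} (hp : p ∈ closedBall y (δ / 2))
    (hp' : p' ∈ closedBall y (δ / 2)) : ‖deriv φ p'‖ ≤ ‖deriv φ p‖ * Real.exp 8 := by
  have hsub : ∀ z ∈ closedBall y (δ / 2), ball z (δ / 2) ⊆ ball y δ := by
    intro z hz
    refine ball_subset_ball' ?_
    rw [mem_closedBall] at hz
    linarith
  have hb : ∀ z ∈ closedBall y (δ / 2), ‖deriv (deriv φ) z‖ ≤ 8 / δ * ‖deriv φ z‖ := by
    intro z hz
    have h := (kb φ z (δ / 2) (by positivity) (hd.mono (hsub z hz)) (hi.mono (hsub z hz))).2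
    rw [div_mul_eq_mul_div, le_div_iff₀ hδ]
    linarith
  have hd' : DifferentiableOn ℂ (deriv φ) (ball y δ) := hd.deriv isOpen_ball
  have hmem : ∀ t ∈ Icc (0 : ℝ) 1, p + (t : ℂ) * (p' - p) ∈ closedBall y (δ / 2) := by
    intro t ht
    have h := (convex_closedBall y (δ / 2)).add_smul_sub_mem hp hp' ht
    rwa [Complex.real_smul] at h
  have hin : ∀ z ∈ closedBall y (δ / 2), z ∈ ball y δ := fun z hz =>
    closedBall_subset_ball (by linarith) hz
  set g : ℝ → ℂ := fun t => deriv φ (p + (t : ℂ) * (p' - p)) with hg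
  set g' : ℝ → ℂ := fun t => deriv (deriv φ) (p + (t : ℂ) * (p' - p)) * (p' - p) with hg'
  have hgd : ∀ t ∈ Icc (0 : ℝ) 1, HasDerivAt g (g' t) t := by
    intro t ht
    have e1 : HasDerivAt (deriv φ) (deriv (deriv φ) (p + (t : ℂ) * (p' - p)))
        (p + (t : ℂ) * (p' - p)) :=
      (hd'.differentiableAt (isOpen_ball.mem_nhds (hin _ (hmem t ht)))).hasDerivAt
    have e2 : HasDerivAt (fun t : ℝ => p + (t : ℂ) * (p' - p)) (p' - p) t := by
      have := (((hasDerivAt_id (t : ℝ)).ofReal_comp).mul_const (p' - p)).const_add p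
      simpa using this
    exact HasDerivAt.comp t e1 e2
  have hpp : ‖p' - p‖ ≤ δ := by
    rw [← dist_eq_norm]
    have := dist_triangle_right p' p y
    rw [mem_closedBall] at hp hp'
    linarith
  have key := norm_le_gronwallBound_of_norm_deriv_right_le (f := g) (f' := g') (δ := ‖g 0‖)
    (K := 8) (ε := 0) (a := 0) (b := 1)
    (fun t ht => (hgd t ht).continuousAt.continuousWithinAt)
    (fun t ht => (hgd t (Ico_subset_Icc_self ht)).hasDerivWithinAt) le_rfl (by
      intro t ht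
      have h1 := hb _ (hmem t (Ico_subset_Icc_self ht))
      show ‖deriv (deriv φ) (p + (t : ℂ) * (p' - p)) * (p' - p)‖ ≤ 8 * ‖g t‖ + 0
      rw [norm_mul, add_zero]
      calc ‖deriv (deriv φ) (p + (t : ℂ) * (p' - p))‖ * ‖p' - p‖
          ≤ (8 / δ * ‖g t‖) * δ := mul_le_mul h1 hpp (norm_nonneg _) (by positivity)
        _ = 8 * ‖g t‖ := by field_simp) 1 (right_mem_Icc.mpr zero_le_one)
  rw [gronwallBound_ε0] at key
  simpa [hg] using key

/-- An injective holomorphic image of a disc with a hole has a hole. -/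
theorem por_of {h : ℂ → ℂ} {y : ℂ} {δ : ℝ} (hδ : 0 < δ) (hd : DifferentiableOn ℂ h (ball y δ))
    (hi : InjOn h (ball y δ)) {N : Set ℂ} {g : ℂ} {ρ : ℝ} (hρ : 0 < ρ) (hg : dist g y < δ / 4)
    (hsub : ball g ρ ⊆ ball y (δ / 2)) (hN : ∀ s ∈ ball g ρ, h s ∉ N) :
    Pool.Agent.H637R4.PO.Por N (h y) (Real.exp 8 * ‖deriv h y‖ * δ)
      (ρ * Real.exp (-16) / (4 * δ)) := by
  have hyb : y ∈ ball y δ := mem_ball_self hδ
  have hy0 : deriv h y ≠ 0 := (kb h y δ hδ hd hi).1
  have hy : 0 < ‖deriv h y‖ := norm_pos_iff.mpr hy0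
  have hyc : y ∈ closedBall y (δ / 2) := mem_closedBall_self (by positivity)
  have hgc : g ∈ closedBall y (δ / 2) := by
    rw [mem_closedBall]; linarith
  have hsub' : ball g ρ ⊆ ball y δ := hsub.trans (ball_subset_ball (by linarith))
  refine ⟨h g, ?_, ?_⟩
  · rw [mem_ball, dist_eq_norm]
    have h1 : ‖h g - h y‖ ≤ (‖deriv h y‖ * Real.exp 8) * ‖g - y‖ := by
      refine (convex_closedBall y (δ / 2)).norm_image_sub_le_of_norm_hasDerivWithin_le
        (f := h) (f' := deriv h) (fun z hz => ?_) (fun z hz => distort hδ hd hi hyc hz) hyc hgc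
      exact ((hd.differentiableAt (isOpen_ball.mem_nhds
        (closedBall_subset_ball (by linarith) hz))).hasDerivAt).hasDerivWithinAt
    rw [← dist_eq_norm g y] at h1
    calc ‖h g - h y‖ ≤ (‖deriv h y‖ * Real.exp 8) * dist g y := h1
      _ < (‖deriv h y‖ * Real.exp 8) * δ := by
          refine mul_lt_mul_of_pos_left (by linarith) (by positivity)
      _ = _ := by ring
  · rw [Set.disjoint_left]
    intro v hv hvN
    have h1 : v ∉ h '' ball g ρ := by
      rintro ⟨s, hs, rfl⟩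
      exact hN s hs hvN
    have h2 := qt h g v ρ hρ (hd.mono hsub') (hi.mono hsub') h1
    have h3 := distort hδ hd hi hgc hyc
    rw [mem_ball, dist_eq_norm] at hv
    have e8 : (0 : ℝ) < Real.exp 8 := Real.exp_pos _
    have e16 : Real.exp (-16 : ℝ) * (Real.exp 8 * Real.exp 8) = 1 := by
      rw [← Real.exp_add, ← Real.exp_add]; norm_num
    have h4 : ρ * Real.exp (-16) / (4 * δ) * (Real.exp 8 * ‖deriv h y‖ * δ) =
        ρ * (Real.exp (-16) * Real.exp 8) * ‖deriv h y‖ / 4 := by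
      field_simp
    rw [h4] at hv
    have h5 : ρ * (Real.exp (-16) * Real.exp 8) * ‖deriv h y‖ ≤ ρ * ‖deriv h g‖ := by
      calc ρ * (Real.exp (-16) * Real.exp 8) * ‖deriv h y‖
          ≤ ρ * (Real.exp (-16) * Real.exp 8) * (‖deriv h g‖ * Real.exp 8) :=
            mul_le_mul_of_nonneg_left h3 (by positivity)
        _ = ρ * ‖deriv h g‖ * (Real.exp (-16) * (Real.exp 8 * Real.exp 8)) := by ring
        _ = ρ * ‖deriv h g‖ := by rw [e16, mul_one]
    linarith

end Pool.Agent.Q186.AZ
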