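import Mathlib
import Pool.Agent.H400R3.HI.Open

/-! Returns away from a finite repelling forward invariant set, and the expansion on it
(helper186). -/

set_option autoImplicit false

open Topology Filter Metric Set

namespace Pool.Agent.Q186.AZ

/-- The orbit of a point which never lands in the finite set `Q` leaves a neighbourhood of `Q`
infinitely often, when `Q` is forward invariant and its points land on repelling cycles. -/
theorem returns {G : ℂ → ℂ} (hG : Differentiable ℂ G) {Q : Set ℂ} (hQ : Q.Finite)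
    (hQG : ∀ q ∈ Q, G q ∈ Q) {M : ℕ}
    (hQM : ∀ q ∈ Q, ∃ k, ∀ j, k ≤ j → 2 ≤ ‖deriv G^[M] (G^[j] q)‖) :
    ∃ r > 0, ∀ x : ℂ, (∀ n, G^[n] x ∉ Q) → ∀ n₀, ∃ n, n₀ ≤ n ∧ ∀ q ∈ Q, r ≤ dist (G^[n] x) q := by
  -- separation of the points of `Q`
  obtain ⟨σ, hσ0, hσ⟩ : ∃ σ > 0, ∀ p ∈ Q, ∀ q ∈ Q, dist p q < σ → p = q := by
    have h1 : ∀ᶠ σ : ℝ in 𝓝[>] 0, ∀ p ∈ Q, ∀ q ∈ Q, dist p q < σ → p = q := by
      rw [Filter.eventually_all_finite hQ]
      intro p hp
      rw [Filter.eventually_all_finite hQ]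
      intro q hq
      by_cases h : p = q
      · exact Filter.Eventually.of_forall fun _ _ => h
      · filter_upwards [Ioo_mem_nhdsGT (dist_pos.mpr h)] with σ hσ h2
        exact absurd h2 (not_lt.mpr hσ.2.le)
    obtain ⟨σ, h2, h3⟩ := (h1.and self_mem_nhdsWithin).exists
    exact ⟨σ, h3, h2⟩
  -- continuity
  obtain ⟨r₁, hr₁0, hr₁⟩ : ∃ r₁ > 0, ∀ q ∈ Q, ∀ w, dist w q < r₁ → dist (G w) (G q) < σ / 2 := by
    have h1 : ∀ᶠ r : ℝ in 𝓝[>] 0, ∀ q ∈ Q, ∀ w, dist w q < r → dist (G w) (G q) < σ / 2 := by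
      rw [Filter.eventually_all_finite hQ]
      intro q hq
      obtain ⟨r, hr, hr'⟩ := Metric.continuousAt_iff.mp (hG.continuous.continuousAt (x := q))
        (σ / 2) (by positivity)
      filter_upwards [Ioo_mem_nhdsGT hr] with r' h w hw
      exact hr' (hw.trans h.2)
    obtain ⟨r, h2, h3⟩ := (h1.and self_mem_nhdsWithin).exists
    exact ⟨r, h3, h2⟩
  -- expansion
  obtain ⟨r₂, hr₂0, hr₂⟩ : ∃ r₂ > 0, ∀ q ∈ Q, 2 ≤ ‖deriv G^[M] q‖ → ∀ w, dist w q < r₂ →
      3 / 2 * dist w q ≤ dist (G^[M] w) (G^[M] q) := by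
    have h1 : ∀ᶠ r : ℝ in 𝓝[>] 0, ∀ q ∈ Q, 2 ≤ ‖deriv G^[M] q‖ → ∀ w, dist w q < r →
        3 / 2 * dist w q ≤ dist (G^[M] w) (G^[M] q) := by
      rw [Filter.eventually_all_finite hQ]
      intro q hq
      by_cases hd : 2 ≤ ‖deriv G^[M] q‖
      · have h1 := hasDerivAt_iff_isLittleO.mp ((hG.iterate M) q).hasDerivAt
        have h2 := h1.def (by norm_num : (0 : ℝ) < 1 / 2)
        obtain ⟨r, hr, h3⟩ := Metric.mem_nhds_iff.mp h2
        filter_upwards [Ioo_mem_nhdsGT hr] with r' h _ w hw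
        have h4 := h3 (show w ∈ ball q r from hw.trans h.2)
        simp only [Set.mem_ofPred_eq, smul_eq_mul] at h4
        rw [dist_eq_norm, dist_eq_norm]
        have h5 : ‖(w - q) * deriv G^[M] q‖ ≤ ‖G^[M] w - G^[M] q‖ +
            ‖G^[M] w - G^[M] q - (w - q) * deriv G^[M] q‖ := by
          have : (w - q) * deriv G^[M] q = (G^[M] w - G^[M] q) -
            (G^[M] w - G^[M] q - (w - q) * deriv G^[M] q) := by ring
          conv_lhs => rw [this]
          exact norm_sub_le _ _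
        rw [norm_mul] at h5
        have h6 : ‖w - q‖ * 2 ≤ ‖w - q‖ * ‖deriv G^[M] q‖ :=
          mul_le_mul_of_nonneg_left hd (norm_nonneg _)
        linarith
      · exact Filter.Eventually.of_forall fun _ h => absurd h hd
    obtain ⟨r, h2, h3⟩ := (h1.and self_mem_nhdsWithin).exists
    exact ⟨r, h3, h2⟩
  set r : ℝ := min (min r₁ r₂) (σ / 2) with hr
  have hr0 : 0 < r := by positivity
  have hrr₁ : r ≤ r₁ := (min_le_left _ _).trans (min_le_left _ _)
  have hrr₂ : r ≤ r₂ := (min_le_left _ _).trans (min_le_right _ _)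
  have hrσ : r ≤ σ / 2 := min_le_right _ _
  refine ⟨r, hr0, fun x hx n₀ => ?_⟩
  by_contra hcon
  push Not at hcon
  choose! p hpQ hpd using hcon
  have hpG : ∀ n, n₀ ≤ n → p (n + 1) = G (p n) := by
    intro n hn
    have h1 := hr₁ _ (hpQ n hn) _ ((hpd n hn).trans_le hrr₁)
    rw [← Function.iterate_succ_apply' G n x] at h1
    have h2 := hpd (n + 1) (by omega)
    refine hσ _ (hpQ _ (by omega)) _ (hQG _ (hpQ n hn)) ?_
    have h3 := dist_triangle (p (n + 1)) (G^[n + 1] x) (G (p n))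
    rw [dist_comm (p (n + 1)) (G^[n + 1] x)] at h3
    have h4 : dist (G^[n + 1] x) (p (n + 1)) < σ / 2 := h2.trans_le hrσ
    have h5 : dist (G^[n + 1] x) (G (p n)) < σ / 2 := h1
    linarith
  have hpj : ∀ j, p (n₀ + j) = G^[j] (p n₀) := by
    intro j
    induction j with
    | zero => rfl
    | succ j ih => rw [← add_assoc, hpG _ (by omega), ih, Function.iterate_succ_apply']
  obtain ⟨k, hk⟩ := hQM _ (hpQ n₀ le_rfl)
  have hu : ∀ i, (3 / 2 : ℝ) ^ i * dist (G^[n₀ + k] x) (p (n₀ + k)) ≤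
      dist (G^[n₀ + k + M * i] x) (p (n₀ + k + M * i)) := by
    intro i
    induction i with
    | zero => simp
    | succ i ih =>
      have e1 : G^[n₀ + k + M * (i + 1)] x = G^[M] (G^[n₀ + k + M * i] x) := by
        rw [← Function.iterate_add_apply]; congr 1; ring
      have e2 : p (n₀ + k + M * (i + 1)) = G^[M] (p (n₀ + k + M * i)) := by
        rw [show n₀ + k + M * (i + 1) = n₀ + (k + M * (i + 1)) by ring, hpj,
          show n₀ + k + M * i = n₀ + (k + M * i) by ring, hpj, ← Function.iterate_add_apply]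
        congr 1
        ring
      have h1 : 2 ≤ ‖deriv G^[M] (p (n₀ + k + M * i))‖ := by
        rw [show n₀ + k + M * i = n₀ + (k + M * i) by ring, hpj]
        exact hk _ (by omega)
      have h2 := hr₂ _ (hpQ (n₀ + k + M * i) (by omega)) h1 _
        ((hpd (n₀ + k + M * i) (by omega)).trans_le hrr₂)
      rw [e1, e2]
      refine le_trans ?_ h2
      rw [pow_succ]
      calc (3 / 2 : ℝ) ^ i * (3 / 2) * dist (G^[n₀ + k] x) (p (n₀ + k))
          = 3 / 2 * ((3 / 2 : ℝ) ^ i * dist (G^[n₀ + k] x) (p (n₀ + k))) := by ring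
        _ ≤ _ := mul_le_mul_of_nonneg_left ih (by norm_num)
  have hpos : 0 < dist (G^[n₀ + k] x) (p (n₀ + k)) := by
    rw [dist_pos]
    intro h
    exact hx _ (h ▸ hpQ (n₀ + k) (by omega))
  obtain ⟨i, hi⟩ := pow_unbounded_of_one_lt (r / dist (G^[n₀ + k] x) (p (n₀ + k)))
    (by norm_num : (1 : ℝ) < 3 / 2)
  rw [div_lt_iff₀ hpos] at hi
  have h1 := hu i
  have h2 := hpd (n₀ + k + M * i) (by omega)
  linarith

/-- The derivatives of the iterates are unbounded at the points of `Q`. -/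
theorem deriv_unbounded {G : ℂ → ℂ} (hG : Differentiable ℂ G) {M : ℕ} {q : ℂ} {k : ℕ}
    (hk : ∀ j, k ≤ j → 2 ≤ ‖deriv G^[M] (G^[j] q)‖) (B : ℝ) :
    ∃ i, B < ‖deriv G^[i] (G^[k] q)‖ := by
  have h1 : ∀ i, (2 : ℝ) ^ i ≤ ‖deriv G^[M * i] (G^[k] q)‖ := by
    intro i
    induction i with
    | zero => simp
    | succ i ih =>
      have e : G^[M * (i + 1)] = G^[M] ∘ G^[M * i] := by
        rw [← Function.iterate_add]; congr 1; ring
      rw [e, deriv_comp _ ((hG.iterate M) _) ((hG.iterate (M * i)) _), norm_mul, pow_succ,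
        mul_comm (2 ^ i : ℝ), ← Function.iterate_add_apply]
      exact mul_le_mul (hk _ (by omega)) ih (by positivity) (norm_nonneg _)
  obtain ⟨i, hi⟩ := pow_unbounded_of_one_lt B (by norm_num : (1 : ℝ) < 2)
  exact ⟨M * i, hi.trans_le (h1 i)⟩

end Pool.Agent.Q186.AZ
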