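import Mathlib
import Pool.Agent.Q186.AZ.Ret

/-! Bounded inverse branches near the bad points away from the orbits of the bad critical points
(helper186). -/

set_option autoImplicit false

open Topology Filter Metric Set

namespace Pool.Agent.Q186.AZ

open Pool.Agent.H713R5.QJ Pool.Agent.H713R3.ZA Pool.Agent.H400R3.HI

section

variable {G : ℂ → ℂ} (hG : Differentiable ℂ G) {R : ℝ} (hR : 0 < R)
  (hGR : ∀ w, R ≤ ‖w‖ → 2 * ‖w‖ ≤ ‖G w‖) {A : Set ℂ} (hA : A.Finite) {P : ℕ} (hP : 0 < P)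
  (hAG : ∀ a ∈ A, G a ∈ A) (hAP : ∀ a ∈ A, G^[P] a = a ∧ ‖deriv G^[P] a‖ < 1)
  (hAgd : ∀ a ∈ A, Gd G A P a)
  (hC : {c | deriv G c = 0}.Finite) {Q : Set ℂ} (hQG : ∀ q ∈ Q, G q ∈ Q)
  (hcrit : ∀ c, deriv G c = 0 → Gd G A P c ∨ G c ∈ Q)

include hG hR hGR hA hP hAG hAP hAgd hC in
/-- the constants `D` and `δ` -/
theorem consts : ∃ D : ℝ, 0 < D ∧ (∀ a ∈ A, ∀ y, ¬ Gd G A P y → D ≤ dist a y) ∧
    ∃ δ : ℝ, 0 < δ ∧ δ < D / 2 ∧ ∀ c, deriv G c = 0 → Gd G A P c → ∀ k : ℕ, ∀ y,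
      ¬ Gd G A P y → δ ≤ dist (G^[k] c) y := by
  have hcl : IsClosed {y | ¬ Gd G A P y} := (gd_open hG hR hGR hP hAP).isClosed_compl
  obtain ⟨D, hD0, hD⟩ : ∃ D : ℝ, 0 < D ∧ ∀ a ∈ A, ∀ y, ¬ Gd G A P y → D ≤ dist a y := by
    obtain ⟨r, hr, h⟩ := Metric.exists_pos_forall_lt_edist hA.isCompact hcl
      (Set.disjoint_left.mpr fun a ha h => h (hAgd a ha))
    refine ⟨r, by exact_mod_cast hr, fun a ha y hy => ?_⟩
    have h3 := h a ha y hy
    rw [edist_nndist, ENNReal.coe_lt_coe] at h3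
    exact_mod_cast h3.le
  refine ⟨D, hD0, hD, ?_⟩
  have h1 : ∀ᶠ δ : ℝ in 𝓝[>] 0, ∀ c ∈ {c | deriv G c = 0}, Gd G A P c → ∀ k : ℕ, ∀ y,
      ¬ Gd G A P y → δ ≤ dist (G^[k] c) y := by
    rw [Filter.eventually_all_finite hC]
    intro c hc
    by_cases hg : Gd G A P c
    · filter_upwards [away hG hR hGR hP hAG hAP hD0 hD hg] with δ h _
      exact h
    · exact Filter.Eventually.of_forall fun _ h => absurd h hg
  have h2 : ∀ᶠ δ : ℝ in 𝓝[>] 0, δ < D / 2 :=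
    nhdsWithin_le_nhds (gt_mem_nhds (by linarith))
  obtain ⟨δ, ⟨h3, h4⟩, h5⟩ := ((h1.and h2).and self_mem_nhdsWithin).exists
  exact ⟨δ, h5, h4, fun c hc => h3 c hc⟩

include hQG in
theorem iter_mem_Q {q : ℂ} (hq : q ∈ Q) (n : ℕ) : G^[n] q ∈ Q := by
  induction n with
  | zero => exact hq
  | succ n ih => rw [Function.iterate_succ_apply']; exact hQG _ ih

include hG hcrit hQG in
theorem nocrit {δ : ℝ} (hδ : ∀ c, deriv G c = 0 → Gd G A P c → ∀ k : ℕ, ∀ y,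
      ¬ Gd G A P y → δ ≤ dist (G^[k] c) y) {n : ℕ} {y : ℂ} (hy : ¬ Gd G A P y) {s : ℝ}
    (hs : s ≤ δ) (hq : ∀ q ∈ Q, s ≤ dist y q) {z : ℂ} (hz : G^[n] z ∈ ball y s) :
    deriv G^[n] z ≠ 0 := by
  intro h0
  obtain ⟨j, hj, hc⟩ := exists_crit_iter hG n h0
  rw [mem_ball] at hz
  rcases hcrit _ hc with hg | hb
  · have h1 := hδ _ hc hg (n - j) y hy
    rw [← Function.iterate_add_apply, show n - j + j = n by omega] at h1
    linarith
  · have h1 := iter_mem_Q hQG hb (n - j - 1)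
    rw [← Function.iterate_succ_apply' G j z, ← Function.iterate_add_apply,
      show n - j - 1 + j.succ = n by omega] at h1
    have h2 := hq _ h1
    rw [dist_comm] at h2
    linarith

include hG hR hGR hcrit hQG hP hAG in
/-- bounded inverse branches -/
theorem pull {δ : ℝ} (hδ : ∀ c, deriv G c = 0 → Gd G A P c → ∀ k : ℕ, ∀ y,
      ¬ Gd G A P y → δ ≤ dist (G^[k] c) y) {n : ℕ} {x : ℂ} (hx : ¬ Gd G A P x) {s : ℝ}
    (hs0 : 0 < s) (hs : s ≤ δ) (hq : ∀ q ∈ Q, s ≤ dist (G^[n] x) q) :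
    ∃ h : ℂ → ℂ, DifferentiableOn ℂ h (ball (G^[n] x) s) ∧ h (G^[n] x) = x ∧
      (∀ t ∈ ball (G^[n] x) s, G^[n] (h t) = t) ∧ (∀ t ∈ ball (G^[n] x) s, ‖h t‖ ≤ R + δ) ∧
      ‖deriv G^[n] x‖ * ‖deriv h (G^[n] x)‖ = 1 := by
  have hyN : ¬ Gd G A P (G^[n] x) := fun h => hx (gd_of_iter hG hP hAG n h)
  obtain ⟨h, hd, hy, hinv⟩ := branch hG hR hGR hs0
    (fun z hz => nocrit hG hQG hcrit hδ hyN hs hq hz) (rfl : G^[n] x = G^[n] x)
  refine ⟨h, hd, hy, hinv, ?_, ?_⟩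
  · intro t ht
    by_contra hlt
    rw [not_le] at hlt
    have h4 : R ≤ ‖h t‖ := by linarith [hs0.trans_le hs]
    have h5 := pow_le_iter hR hGR h4 n
    rw [hinv t ht] at h5
    have h6 : (1 : ℝ) ≤ 2 ^ n := one_le_pow₀ (by norm_num)
    have h7 : ‖t‖ < R + δ := by
      rw [mem_ball, dist_eq_norm] at ht
      have h8 := norm_add_le (t - G^[n] x) (G^[n] x)
      rw [sub_add_cancel] at h8
      linarith [bad_norm hR hGR hyN]
    nlinarith [norm_nonneg (h t)]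
  · have h1 : deriv G^[n] x * deriv h (G^[n] x) = 1 := by
      have := mul_deriv_branch (hG.iterate n) hs0 hd hinv
      rwa [hy] at this
    rw [← norm_mul, h1, norm_one]

include hG hR hGR hcrit hQG hP hAG in
theorem blow {δ : ℝ} (hδ0 : 0 < δ) (hδ : ∀ c, deriv G c = 0 → Gd G A P c → ∀ k : ℕ, ∀ y,
      ¬ Gd G A P y → δ ≤ dist (G^[k] c) y) {m : ℝ} (hm : 0 < m) :
    ∃ ρ > 0, ∀ (n : ℕ) (x : ℂ), ¬ Gd G A P x → ∀ s, 0 < s → s ≤ δ →
      (∀ q ∈ Q, s ≤ dist (G^[n] x) q) → m * ‖deriv G^[n] x‖ ≤ s →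
      ∀ w ∈ ball x ρ, G^[n] w ∈ ball (G^[n] x) s := by
  obtain ⟨ρ, hρ, hcov⟩ := cover (δ := 1) (B := R + δ) (m := m) one_pos (by linarith) hm
  refine ⟨ρ, hρ, fun n x hx s hs0 hs hq hder w hw => ?_⟩
  obtain ⟨h, hd, hy, hinv, hb, hmul⟩ := pull hG hR hGR hP hAG hQG hcrit hδ hx hs0 hs hq
  set y := G^[n] x with hy'
  have hmem : ∀ t ∈ ball (0 : ℂ) 1, y + (s : ℂ) * t ∈ ball y s := by
    intro t ht
    rw [mem_ball_zero_iff] at ht
    rw [mem_ball, dist_eq_norm, add_sub_cancel_left, norm_mul, Complex.norm_real,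
      Real.norm_of_nonneg hs0.le]
    calc s * ‖t‖ < s * 1 := mul_lt_mul_of_pos_left ht hs0
      _ = s := mul_one s
  have h1 : DifferentiableOn ℂ (fun t : ℂ => h (y + (s : ℂ) * t)) (ball 0 1) :=
    hd.comp (Differentiable.differentiableOn (by fun_prop)) hmem
  have h2 : deriv (fun t : ℂ => h (y + (s : ℂ) * t)) 0 = deriv h y * s := by
    have e1 : HasDerivAt h (deriv h y) (y + (s : ℂ) * 0) := by
      rw [mul_zero, add_zero]
      exact (hd.differentiableAt (ball_mem_nhds y hs0)).hasDerivAt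
    have e2 : HasDerivAt (fun t : ℂ => y + (s : ℂ) * t) (s : ℂ) 0 := by
      simpa using ((hasDerivAt_id (0 : ℂ)).const_mul (s : ℂ)).const_add y
    exact (e1.comp (0 : ℂ) e2).deriv
  have h3 := hcov _ 0 h1 (fun t ht => hb _ (hmem t ht)) (by
    rw [h2, norm_mul, Complex.norm_real, Real.norm_of_nonneg hs0.le]
    have h5 : m * ‖deriv G^[n] x‖ * ‖deriv h y‖ ≤ s * ‖deriv h y‖ :=
      mul_le_mul_of_nonneg_right hder (norm_nonneg _)
    rw [mul_assoc, hmul, mul_one] at h5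
    linarith)
  have h4 : h (y + (s : ℂ) * 0) = x := by rw [mul_zero, add_zero, hy]
  rw [h4] at h3
  obtain ⟨t, ht, hte⟩ := h3 hw
  rw [← hte]
  simp only
  rw [hinv _ (hmem t ht)]
  exact hmem t ht

end

end Pool.Agent.Q186.AZ
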