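import Mathlib
import Pool.Agent.Q186.AZ.Br

/-! The bad set has empty interior when every critical point is good or its image lies in a finite
forward invariant set whose points land on repelling cycles (helper186). -/

set_option autoImplicit false

open Topology Filter Metric Set

namespace Pool.Agent.Q186.AZ

open Pool.Agent.H713R5.QJ Pool.Agent.H713R3.ZA Pool.Agent.H400R3.HI

section

variable {G : ℂ → ℂ} (hG : Differentiable ℂ G) {R : ℝ} (hR : 0 < R)
  (hGR : ∀ w, R ≤ ‖w‖ → 2 * ‖w‖ ≤ ‖G w‖) {A : Set ℂ} (hA : A.Finite) {P : ℕ} (hP : 0 < P)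
  (hAG : ∀ a ∈ A, G a ∈ A) (hAP : ∀ a ∈ A, G^[P] a = a ∧ ‖deriv G^[P] a‖ < 1)
  (hAgd : ∀ a ∈ A, Gd G A P a)
  (hC : {c | deriv G c = 0}.Finite) {Q : Set ℂ} (hQ : Q.Finite) (hQG : ∀ q ∈ Q, G q ∈ Q)
  (hcrit : ∀ c, deriv G c = 0 → Gd G A P c ∨ G c ∈ Q) {M : ℕ}
  (hQM : ∀ q ∈ Q, ∃ k, ∀ j, k ≤ j → 2 ≤ ‖deriv G^[M] (G^[j] q)‖)

include hG hR hGR in
/-- entire functions with growth are open -/
theorem open_image {U : Set ℂ} (hU : IsOpen U) : IsOpen (G '' U) := by
  have h1 : ∀ z, ¬ ∀ᶠ w in 𝓝 z, G w = G z := by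
    intro z hz
    have h2 : G = fun _ => G z := by
      have ha : AnalyticOnNhd ℂ G univ := fun w _ => hG.analyticAt w
      have hb : AnalyticOnNhd ℂ (fun _ : ℂ => G z) univ := fun w _ => analyticAt_const
      exact ha.eq_of_eventuallyEq hb hz
    have h3 := hGR ((R + ‖G z‖ : ℝ) : ℂ) (by
      rw [Complex.norm_real, Real.norm_of_nonneg (by positivity)]
      linarith [norm_nonneg (G z)])
    rw [h2, Complex.norm_real, Real.norm_of_nonneg (by positivity)] at h3
    linarith [norm_nonneg (G z)]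
  rcases AnalyticOnNhd.is_constant_or_isOpen (g := G) (U := univ) (fun w _ => hG.analyticAt w)
    isPreconnected_univ with ⟨w, hw⟩ | h
  · exact absurd (Filter.Eventually.of_forall fun z => by rw [hw z trivial, hw 0 trivial]) (h1 0)
  · exact h U (subset_univ _) hU

include hG hR hGR hP hAG in
theorem int_iter {w : ℂ} (hw : w ∈ interior {y | ¬ Gd G A P y}) (n : ℕ) :
    G^[n] w ∈ interior {y | ¬ Gd G A P y} := by
  induction n with
  | zero => exact hw
  | succ n ih =>
    rw [Function.iterate_succ_apply']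
    refine interior_maximal ?_ (open_image hG hR hGR isOpen_interior) (mem_image_of_mem G ih)
    rintro _ ⟨y, hy, rfl⟩
    exact fun h => (interior_subset hy) (gd_of_iter hG hP hAG 1 h)

include hG hR hGR hP hAG in
/-- Cauchy bound -/
theorem cauchy_bd {w : ℂ} {r₀ : ℝ} (hr₀ : 0 < r₀) (hball : ∀ z ∈ ball w r₀, ¬ Gd G A P z)
    (n : ℕ) : ‖deriv G^[n] w‖ ≤ R / (r₀ / 2) :=
  Complex.norm_deriv_le_of_forall_mem_sphere_norm_le (by linarith)
    (hG.iterate n).diffContOnCl fun z hz => (bad_norm hR hGR (A := A) (P := P) (fun h =>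
      hball z (by rw [mem_sphere] at hz; rw [mem_ball, hz]; linarith)
        (gd_of_iter hG hP hAG n h))).le

include hG hR hGR hP hAG hQM in
/-- the points of `Q` are not interior -/
theorem Q_not_int {q : ℂ} (hq : q ∈ Q) : q ∉ interior {y | ¬ Gd G A P y} := by
  intro hint
  obtain ⟨k, hk⟩ := hQM q hq
  have h1 := int_iter hG hR hGR hP hAG hint k
  obtain ⟨r₀, hr₀, hball⟩ := Metric.isOpen_iff.mp isOpen_interior _ h1
  obtain ⟨i, hi⟩ := deriv_unbounded hG hk (R / (r₀ / 2))
  have h2 := cauchy_bd hG hR hGR hP hAG (w := G^[k] q) hr₀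
    (fun z hz => interior_subset (s := {y | ¬ Gd G A P y}) (hball hz)) i
  linarith

include hG hR hGR hA hP hAG hAP hAgd hC hQ hQG hcrit hQM in
theorem empty_int' {x₀ : ℂ} {r₀ : ℝ} (hr₀ : 0 < r₀)
    (hball : ∀ w ∈ ball x₀ r₀, ¬ Gd G A P w) : False := by
  set N : Set ℂ := {y | ¬ Gd G A P y} with hN
  have hcl : IsClosed N := (gd_open hG hR hGR hP hAP).isClosed_compl
  have hNiter : ∀ y ∈ N, ∀ n, G^[n] y ∈ N := fun y hy n h => hy (gd_of_iter hG hP hAG n h)
  have hNR : ∀ y ∈ N, ‖y‖ < R := fun y hy => bad_norm hR hGR hy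
  obtain ⟨D, hD0, hD, δ, hδ0, hδD, hδ⟩ := consts hG hR hGR hA hP hAG hAP hAgd hC
  obtain ⟨r, hr0, hr⟩ := returns hG hQ hQG hQM
  have hQW : ∀ q ∈ Q, q ∉ interior N := fun q hq => Q_not_int hG hR hGR hP hAG hQM hq
  -- no landing, no critical points in the interior
  have hWQ : ∀ w ∈ interior N, ∀ n, G^[n] w ∉ Q := fun w hw n h =>
    hQW _ h (int_iter hG hR hGR hP hAG hw n)
  have hWd : ∀ w ∈ interior N, ∀ n, deriv G^[n] w ≠ 0 := by
    intro w hw n h0
    obtain ⟨j, hj, hc⟩ := exists_crit_iter hG n h0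
    have h1 := int_iter hG hR hGR hP hAG hw j
    rcases hcrit _ hc with hg | hb
    · exact interior_subset h1 hg
    · refine hQW _ hb ?_
      have := int_iter hG hR hGR hP hAG hw (j + 1)
      rwa [Function.iterate_succ_apply'] at this
  -- bound at the centre
  set C₀ : ℝ := R / (r₀ / 2) with hC₀
  have hC₀0 : 0 < C₀ := by positivity
  have hx₀N : x₀ ∈ N := hball x₀ (mem_ball_self hr₀)
  have hx₀W : x₀ ∈ interior N :=
    interior_maximal (fun w hw => hball w hw) isOpen_ball (mem_ball_self hr₀)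
  have hbd : ∀ n : ℕ, ‖deriv G^[n] x₀‖ ≤ C₀ := fun n => cauchy_bd hG hR hGR hP hAG hr₀ hball n
  -- the product over `Q`
  set F : ℂ → ℂ := fun y => ∏ q ∈ hQ.toFinset, (y - q) with hF
  have hFd : Differentiable ℂ F := by
    have : F = ∏ q ∈ hQ.toFinset, fun y : ℂ => y - q := by
      funext y; simp [hF, Finset.prod_apply]
    rw [this]
    exact Differentiable.finsetProd fun q _ => differentiable_id.sub_const q
  obtain ⟨S, hS1, hS⟩ : ∃ S : ℝ, 1 ≤ S ∧ ∀ y ∈ N, ∀ q ∈ Q, ‖y - q‖ ≤ S := by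
    obtain ⟨S, hS⟩ := hQ.isBounded.exists_norm_le
    refine ⟨max 1 (R + S), le_max_left _ _, fun y hy q hq => (norm_sub_le _ _).trans ?_⟩
    exact le_trans (by linarith [hNR y hy, hS q hq]) (le_max_right _ _)
  -- lower bound for `F` at the returns
  have hFlow : ∀ y, (∀ q ∈ Q, r ≤ dist y q) → (min r 1) ^ hQ.toFinset.card ≤ ‖F y‖ := by
    intro y hy
    rw [hF, norm_prod, ← Finset.prod_const]
    refine Finset.prod_le_prod (fun _ _ => by positivity) fun q hq => ?_
    rw [← dist_eq_norm]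
    exact (min_le_left _ _).trans (hy q (hQ.mem_toFinset.mp hq))
  -- upper bound
  have hFup : ∀ y ∈ N, ∀ q ∈ Q, ‖F y‖ ≤ S ^ hQ.toFinset.card * dist y q := by
    intro y hy q hq
    rw [hF, norm_prod, ← Finset.mul_prod_erase _ _ (hQ.mem_toFinset.mpr hq), mul_comm,
      dist_eq_norm]
    refine mul_le_mul_of_nonneg_right ?_ (norm_nonneg _)
    calc ∏ p ∈ hQ.toFinset.erase q, ‖y - p‖ ≤ S ^ (hQ.toFinset.erase q).card := by
          rw [← Finset.prod_const]
          refine Finset.prod_le_prod (fun _ _ => norm_nonneg _) fun p hp => ?_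
          exact hS y hy p (hQ.mem_toFinset.mp (Finset.mem_of_mem_erase hp))
      _ ≤ S ^ hQ.toFinset.card := pow_le_pow_right₀ hS1 (Finset.card_erase_le)
  have hFup' : ∀ y ∈ N, ‖F y‖ ≤ S ^ hQ.toFinset.card := by
    intro y hy
    rw [hF, norm_prod, ← Finset.prod_const]
    exact Finset.prod_le_prod (fun _ _ => norm_nonneg _) fun p hp =>
      hS y hy p (hQ.mem_toFinset.mp hp)
  set L : ℝ := (min r 1) ^ hQ.toFinset.card with hL
  have hL0 : 0 < L := by positivity
  set K : ℝ := S ^ hQ.toFinset.card with hK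
  have hK0 : 0 < K := by positivity
  -- the constant `m`
  set m : ℝ := L / (K * C₀) * min 1 δ with hm
  have hm0 : 0 < m := by positivity
  obtain ⟨ρ, hρ, hblow⟩ := blow hG hR hGR hP hAG hQG hcrit hδ0 hδ hm0
  -- the set at distance `> η` from the good points
  set η : ℝ := min (ρ / 2) (r₀ / 2) with hη
  have hη0 : 0 < η := by positivity
  have hηρ : η < ρ := lt_of_le_of_lt (min_le_left _ _) (by linarith)
  have hηr : η < r₀ := lt_of_le_of_lt (min_le_right _ _) (by linarith)
  have hne : Nᶜ.Nonempty := ⟨(R : ℂ), fun h => by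
    have := hNR _ h
    rw [Complex.norm_real, Real.norm_eq_abs, abs_of_pos hR] at this
    exact lt_irrefl _ this⟩
  set U : Set ℂ := {x | η < infDist x Nᶜ} with hU
  have hcont : Continuous fun x : ℂ => infDist x Nᶜ := continuous_infDist_pt _
  have hW_of : ∀ x, 0 < infDist x Nᶜ → x ∈ interior N := by
    intro x hx
    rw [mem_interior_iff_mem_nhds, Metric.mem_nhds_iff]
    refine ⟨infDist x Nᶜ, hx, fun y hy => ?_⟩
    by_contra h
    have := infDist_le_dist_of_mem (x := x) (s := Nᶜ) h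
    rw [mem_ball, dist_comm] at hy
    linarith
  have hclU : closure U ⊆ {x | η ≤ infDist x Nᶜ} :=
    closure_lt_subset_le continuous_const hcont
  have hclW : closure U ⊆ interior N := fun x hx => hW_of x (hη0.trans_le (hclU hx))
  have hx₀U : x₀ ∈ U := by
    show η < infDist x₀ Nᶜ
    refine hηr.trans_le ((le_infDist hne).mpr fun y hy => ?_)
    by_contra hlt
    rw [not_le, dist_comm] at hlt
    exact hy (hball y hlt)
  have hUb : Bornology.IsBounded U :=
    (isBounded_ball (x := (0 : ℂ)) (r := R)).subset fun x hx => by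
      rw [mem_ball_zero_iff]; exact hNR x (interior_subset (hclW (subset_closure hx)))
  have hz : ∀ n : ℕ, (∀ q ∈ Q, r ≤ dist (G^[n] x₀) q) → ∃ z ∈ frontier U,
      L / C₀ * ‖deriv G^[n] z‖ ≤ ‖F (G^[n] z)‖ := by
    intro n hn
    have hd : DiffContOnCl ℂ (fun z => F (G^[n] z) * (deriv G^[n] z)⁻¹) U := by
      refine DifferentiableOn.diffContOnCl fun z hz => ?_
      have h1 : Differentiable ℂ (deriv G^[n]) := by
        have h2 : ContDiff ℂ 2 (G^[n]) := (hG.iterate n).contDiff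
        exact (h2.differentiable_deriv_two)
      exact ((hFd.comp (hG.iterate n) z).mul
        ((h1 z).inv (hWd _ (hclW hz) n))).differentiableWithinAt
    obtain ⟨z, hzf, hmax⟩ := Complex.exists_mem_frontier_isMaxOn_norm hUb ⟨x₀, hx₀U⟩ hd
    refine ⟨z, hzf, ?_⟩
    have h1 := hmax (subset_closure hx₀U)
    have h2 : ‖F (G^[n] x₀) * (deriv G^[n] x₀)⁻¹‖ ≤ ‖F (G^[n] z) * (deriv G^[n] z)⁻¹‖ := h1
    rw [norm_mul, norm_mul, norm_inv, norm_inv] at h2
    have hz0 : 0 < ‖deriv G^[n] z‖ :=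
      norm_pos_iff.mpr (hWd _ (hclW (frontier_subset_closure hzf)) n)
    have hx0 : 0 < ‖deriv G^[n] x₀‖ := norm_pos_iff.mpr (hWd x₀ hx₀W n)
    have h3 : L / C₀ ≤ ‖F (G^[n] x₀)‖ * ‖deriv G^[n] x₀‖⁻¹ := by
      rw [div_eq_mul_inv]
      exact mul_le_mul (hFlow _ hn) ((inv_le_inv₀ hC₀0 hx0).mpr (hbd n)) (by positivity)
        (norm_nonneg _)
    have h4 := h3.trans h2
    rwa [← div_eq_mul_inv (‖F (G^[n] z)‖), le_div_iff₀ hz0] at h4
  -- the times of return
  have hτ : ∀ i : ℕ, ∃ n, i ≤ n ∧ ∀ q ∈ Q, r ≤ dist (G^[n] x₀) q := fun i =>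
    hr x₀ (hWQ x₀ hx₀W) i
  choose τ hτi hτr using hτ
  choose z hzf hzd using fun i => hz (τ i) (hτr i)
  have hmap : ∀ i, ∀ w ∈ ball (z i) ρ, dist (G^[τ i] w) (G^[τ i] (z i)) < δ := by
    intro i w hw
    have hzW : z i ∈ interior N := hclW (frontier_subset_closure (hzf i))
    have hzN : z i ∈ N := interior_subset hzW
    have hyN := hNiter _ hzN (τ i)
    have hnQ : G^[τ i] (z i) ∉ Q := hWQ _ hzW _
    set y := G^[τ i] (z i) with hy
    have hd0 := hzd i
    have key : ∃ s, 0 < s ∧ s ≤ δ ∧ (∀ q ∈ Q, s ≤ dist y q) ∧ m * ‖deriv G^[τ i] (z i)‖ ≤ s := by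
      have hmd : m * ‖deriv G^[τ i] (z i)‖ = min 1 δ / K * (L / C₀ * ‖deriv G^[τ i] (z i)‖) := by
        rw [hm]; field_simp
      rcases Q.eq_empty_or_nonempty with hQe | hQne
      · refine ⟨δ, hδ0, le_rfl, fun q hq => by rw [hQe] at hq; exact absurd hq (notMem_empty q), ?_⟩
        rw [hmd]
        have h1 := hd0.trans (hFup' y hyN)
        calc min 1 δ / K * (L / C₀ * ‖deriv G^[τ i] (z i)‖) ≤ min 1 δ / K * K :=
              mul_le_mul_of_nonneg_left h1 (by positivity)
          _ = min 1 δ := by field_simp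
          _ ≤ δ := min_le_right _ _
      · obtain ⟨q₀, hq₀, hmin⟩ := Set.exists_min_image Q (fun q => dist y q) hQ hQne
        have hpos : 0 < dist y q₀ := dist_pos.mpr fun h => hnQ (h ▸ hq₀)
        refine ⟨min δ (dist y q₀), by positivity, min_le_left _ _,
          fun q hq => (min_le_right _ _).trans (hmin q hq), ?_⟩
        rw [hmd, le_min_iff]
        constructor
        · calc min 1 δ / K * (L / C₀ * ‖deriv G^[τ i] (z i)‖) ≤ min 1 δ / K * K :=
                mul_le_mul_of_nonneg_left (hd0.trans (hFup' y hyN)) (by positivity)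
            _ = min 1 δ := by field_simp
            _ ≤ δ := min_le_right _ _
        · calc min 1 δ / K * (L / C₀ * ‖deriv G^[τ i] (z i)‖)
              ≤ min 1 δ / K * (K * dist y q₀) :=
                mul_le_mul_of_nonneg_left (hd0.trans (hFup y hyN q₀ hq₀)) (by positivity)
            _ = min 1 δ * dist y q₀ := by field_simp
            _ ≤ 1 * dist y q₀ := mul_le_mul_of_nonneg_right (min_le_left _ _) dist_nonneg
            _ = dist y q₀ := one_mul _
    obtain ⟨s, hs0, hsδ, hsQ, hsm⟩ := key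
    have := hblow (τ i) (z i) hzN s hs0 hsδ hsQ hsm w hw
    exact (mem_ball.mp this).trans_le hsδ
  have hcpt : IsCompact (frontier U) :=
    hUb.isCompact_closure.of_isClosed_subset isClosed_frontier frontier_subset_closure
  obtain ⟨a, ha, φ, hφ, hlim⟩ := hcpt.tendsto_subseq hzf
  have ha1 : infDist a Nᶜ < ρ := by
    have h1 : a ∈ {x | η = infDist x Nᶜ} := frontier_lt_subset_eq continuous_const hcont ha
    have h2 : η = infDist a Nᶜ := h1
    rw [← h2]; exact hηρ
  obtain ⟨q, hq, hqa⟩ := (infDist_lt_iff hne).mp ha1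
  have hqg : Gd G A P q := not_not.mp hq
  have hτt : Tendsto τ atTop atTop := tendsto_atTop_mono hτi tendsto_id
  have e1 := (hτt.comp hφ.tendsto_atTop).eventually (far hG hR hGR hP hAG hAP hD0 hD hqg)
  have e2 : ∀ᶠ k : ℕ in atTop, dist (z (φ k)) q < ρ := by
    have h1 : Tendsto (fun k => dist ((z ∘ φ) k) q) atTop (𝓝 (dist a q)) :=
      hlim.dist tendsto_const_nhds
    exact h1.eventually (gt_mem_nhds hqa)
  obtain ⟨k, hk1, hk2⟩ := (e1.and e2).exists
  have hzN : z (φ k) ∈ N := interior_subset (hclW (frontier_subset_closure (hzf _)))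
  have h1 := hmap (φ k) q (by rw [mem_ball, dist_comm]; exact hk2)
  have h2 := hk1 _ (hNiter _ hzN (τ (φ k)))
  simp only [Function.comp_apply] at h2
  linarith

end

end Pool.Agent.Q186.AZ
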