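import Mathlib
import Pool.Agent.Q186.AZ.Int
import Pool.Agent.Q186.AZ.Dist

/-! The bad set has zero area when every critical point is good or its image lies in a finite
forward invariant set whose points land on repelling cycles (helper186). -/

set_option autoImplicit false

open Topology Filter Metric Set MeasureTheory

namespace Pool.Agent.Q186.AZ

open Pool.Agent.H713R5.QJ Pool.Agent.H713R3.ZA Pool.Agent.H400R3.HI

section

variable {G : ℂ → ℂ} (hG : Differentiable ℂ G) {R : ℝ} (hR : 0 < R)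
  (hGR : ∀ w, R ≤ ‖w‖ → 2 * ‖w‖ ≤ ‖G w‖) {A : Set ℂ} (hA : A.Finite) {P : ℕ} (hP : 0 < P)
  (hAG : ∀ a ∈ A, G a ∈ A) (hAP : ∀ a ∈ A, G^[P] a = a ∧ ‖deriv G^[P] a‖ < 1)
  (hAgd : ∀ a ∈ A, Gd G A P a)
  (hC : {c | deriv G c = 0}.Finite) {Q : Set ℂ} (hQ : Q.Finite) (hQG : ∀ q ∈ Q, G q ∈ Q)
  (hcrit : ∀ c, deriv G c = 0 → Gd G A P c ∨ G c ∈ Q) {M : ℕ}
  (hQM : ∀ q ∈ Q, ∃ k, ∀ j, k ≤ j → 2 ≤ ‖deriv G^[M] (G^[j] q)‖)

include hG hR hGR hA hP hAG hAP hAgd hC hQ hQG hcrit hQM in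
/-- holes of uniform size near every bad point -/
theorem holes {δ : ℝ} (hδ : 0 < δ) : ∃ ρ > 0, ∀ y, ¬ Gd G A P y → ∃ g, dist g y < δ / 4 ∧
    ball g ρ ⊆ ball y (δ / 2) ∧ ∀ t ∈ ball g ρ, Gd G A P t := by
  set N : Set ℂ := {y | ¬ Gd G A P y} with hN
  have hcl : IsClosed N := (gd_open hG hR hGR hP hAP).isClosed_compl
  have hNc : IsCompact N := by
    refine (isCompact_closedBall (0 : ℂ) R).of_isClosed_subset hcl fun y hy => ?_
    rw [mem_closedBall_zero_iff]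
    exact (bad_norm hR hGR hy).le
  have h1 : ∀ y : ℂ, ∃ g, ∃ ρ > 0, dist g y < δ / 8 ∧ ∀ t ∈ ball g ρ, Gd G A P t := by
    intro y
    by_contra hcon
    push Not at hcon
    refine empty_int' hG hR hGR hA hP hAG hAP hAgd hC hQ hQG hcrit hQM (x₀ := y) (r₀ := δ / 8)
      (by positivity) fun w hw hgw => ?_
    obtain ⟨ρ, hρ, hsub⟩ := Metric.isOpen_iff.mp (gd_open hG hR hGR hP hAP) w hgw
    obtain ⟨t, ht, hbt⟩ := hcon w ρ hρ hw
    exact hbt (hsub ht)
  choose g ρ hρ hgd hgg using h1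
  obtain ⟨t, -, ht⟩ := hNc.elim_nhds_subcover (fun y => ball y (δ / 8))
    (fun y _ => ball_mem_nhds y (by positivity))
  have h2 : ∀ᶠ r : ℝ in 𝓝[>] 0, ∀ y ∈ t, r ≤ ρ y := by
    rw [Filter.eventually_all_finset]
    intro y _
    filter_upwards [Ioo_mem_nhdsGT (hρ y)] with r hr
    exact hr.2.le
  have h3 : ∀ᶠ r : ℝ in 𝓝[>] 0, r < δ / 4 :=
    nhdsWithin_le_nhds (gt_mem_nhds (by positivity))
  obtain ⟨r, ⟨hr1, hr2⟩, hr0⟩ := ((h2.and h3).and self_mem_nhdsWithin).exists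
  refine ⟨r, hr0, fun y hy => ?_⟩
  obtain ⟨z, hz, hyz⟩ := mem_iUnion₂.mp (ht hy)
  have h4 : dist (g z) y < δ / 4 := by
    have := dist_triangle (g z) z y
    rw [mem_ball, dist_comm] at hyz
    linarith [hgd z]
  refine ⟨g z, h4, ball_subset_ball' (by linarith), fun s hs => hgg z s ?_⟩
  exact ball_subset_ball (hr1 z hz) hs

include hG hR hGR hA hP hAG hAP hAgd hC hQ hQG hcrit hQM in
/-- the bad set has zero area -/
theorem bad_null (hfib : ∀ n, ∀ q ∈ Q, {z | G^[n] z = q}.Countable) :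
    volume {y | ¬ Gd G A P y} = 0 := by
  set N : Set ℂ := {y | ¬ Gd G A P y} with hN
  have hcl : IsClosed N := (gd_open hG hR hGR hP hAP).isClosed_compl
  have hNiter : ∀ y ∈ N, ∀ n, G^[n] y ∈ N := fun y hy n h => hy (gd_of_iter hG hP hAG n h)
  obtain ⟨D, hD0, hD, δ₀, hδ₀0, hδD, hδ⟩ := consts hG hR hGR hA hP hAG hAP hAgd hC
  obtain ⟨r, hr0, hr⟩ := returns hG hQ hQG hQM
  set δ : ℝ := min δ₀ r with hδdef
  have hδ0 : 0 < δ := by positivity
  have hδδ : δ ≤ δ₀ := min_le_left _ _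
  have hδr : δ ≤ r := min_le_right _ _
  obtain ⟨ρ, hρ, hhole⟩ := holes hG hR hGR hA hP hAG hAP hAgd hC hQ hQG hcrit hQM hδ0
  -- the points which land in `Q` are countable
  have hE : (⋃ n : ℕ, ⋃ q ∈ Q, {z | G^[n] z = q}).Countable :=
    Set.countable_iUnion fun n => hQ.countable.biUnion fun q hq => hfib n q hq
  have hE0 : ∀ᵐ x ∂(volume.restrict N), x ∉ ⋃ n : ℕ, ⋃ q ∈ Q, {z : ℂ | G^[n] z = q} := by
    refine ae_restrict_of_ae ?_
    exact measure_eq_zero_iff_ae_notMem.mp (hE.measure_zero volume)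
  have hfalse : ∀ᵐ x ∂(volume.restrict N), False := by
    filter_upwards [hE0, Pool.Agent.H637R4.PO.t_LEB N hcl, ae_restrict_mem hcl.measurableSet]
      with x hxE hxL hxN
    have hxQ : ∀ n, G^[n] x ∉ Q := fun n h =>
      hxE (mem_iUnion.mpr ⟨n, mem_iUnion₂.mpr ⟨_, h, rfl⟩⟩)
    obtain ⟨ρ₁, hρ₁, hpor⟩ := hxL (ρ * Real.exp (-16) / (4 * δ)) (by positivity)
    have e8 : (0 : ℝ) < Real.exp 8 := Real.exp_pos _
    obtain ⟨ρ', hρ', hblow⟩ := blow hG hR hGR hP hAG hQG hcrit hδ₀0 hδ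
      (m := ρ₁ / Real.exp 8) (by positivity)
    -- a good point near `x`
    obtain ⟨q, hq, hqg⟩ : ∃ q ∈ ball x ρ', Gd G A P q := by
      by_contra hcon
      push Not at hcon
      exact empty_int' hG hR hGR hA hP hAG hAP hAgd hC hQ hQG hcrit hQM hρ' hcon
    obtain ⟨n₀, hn₀⟩ := Filter.eventually_atTop.mp (far hG hR hGR hP hAG hAP hD0 hD hqg)
    obtain ⟨n, hn, hret⟩ := hr x hxQ n₀
    have hyN := hNiter x hxN n
    have hretδ : ∀ q ∈ Q, δ ≤ dist (G^[n] x) q := fun q hq => hδr.trans (hret q hq)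
    have hbig : δ < ρ₁ / Real.exp 8 * ‖deriv G^[n] x‖ := by
      by_contra hcon
      have h1 := hblow n x hxN δ hδ0 hδδ hretδ (not_lt.mp hcon) q hq
      have h2 := hn₀ n hn _ hyN
      rw [mem_ball] at h1
      linarith
    obtain ⟨h, hd, hy, hinv, -, hmul⟩ := pull hG hR hGR hP hAG hQG hcrit hδ hxN hδ0 hδδ hretδ
    have hi : InjOn h (ball (G^[n] x) δ) := by
      intro s hs t ht hst
      rw [← hinv s hs, ← hinv t ht, hst]
    obtain ⟨g, hg1, hg2, hg3⟩ := hhole _ hyN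
    have hp := por_of hδ0 hd hi (N := N) hρ hg1 hg2 (by
      intro s hs hsN
      have h1 := hNiter _ hsN n
      rw [hinv s (ball_subset_ball (by linarith) (hg2 hs))] at h1
      exact h1 (hg3 s hs))
    rw [hy] at hp
    refine hpor _ ⟨?_, ?_⟩ hp
    · have : 0 < ‖deriv h (G^[n] x)‖ := by
        rcases (norm_nonneg (deriv h (G^[n] x))).eq_or_lt with h0 | h0
        · rw [← h0, mul_zero] at hmul
          exact absurd hmul zero_ne_one
        · exact h0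
      positivity
    · have h1 : δ * ‖deriv h (G^[n] x)‖ ≤ ρ₁ / Real.exp 8 * ‖deriv G^[n] x‖ *
          ‖deriv h (G^[n] x)‖ := mul_le_mul_of_nonneg_right hbig.le (norm_nonneg _)
      have hpos : 0 < ‖deriv h (G^[n] x)‖ := by
        rcases (norm_nonneg (deriv h (G^[n] x))).eq_or_lt with h0 | h0
        · rw [← h0, mul_zero] at hmul
          exact absurd hmul zero_ne_one
        · exact h0
      have h1 : δ * ‖deriv h (G^[n] x)‖ < ρ₁ / Real.exp 8 * ‖deriv G^[n] x‖ *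
          ‖deriv h (G^[n] x)‖ := mul_lt_mul_of_pos_right hbig hpos
      rw [mul_assoc, hmul, mul_one, lt_div_iff₀ e8] at h1
      linarith
  rw [ae_iff] at hfalse
  simpa using hfalse

end

end Pool.Agent.Q186.AZ
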