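import Mathlib
import Pool.Agent.Q186.AZ.Area

/-! Hyperbolic case: uniform expansion on the bad set, and the points whose iterates are close to it
(helper186). -/

set_option autoImplicit false

open Topology Filter Metric Set MeasureTheory

namespace Pool.Agent.Q186.AZ

open Pool.Agent.H713R5.QJ Pool.Agent.H713R3.ZA Pool.Agent.H400R3.HI

section

variable {G : ℂ → ℂ} (hG : Differentiable ℂ G) {R : ℝ} (hR : 0 < R)
  (hGR : ∀ w, R ≤ ‖w‖ → 2 * ‖w‖ ≤ ‖G w‖) {A : Set ℂ} (hA : A.Finite) {P : ℕ} (hP : 0 < P)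
  (hAG : ∀ a ∈ A, G a ∈ A) (hAP : ∀ a ∈ A, G^[P] a = a ∧ ‖deriv G^[P] a‖ < 1)
  (hAgd : ∀ a ∈ A, Gd G A P a)
  (hC : {c | deriv G c = 0}.Finite) (hcg : ∀ c, deriv G c = 0 → Gd G A P c)

include hG hR hGR hA hP hAG hAP hAgd hC hcg in
/-- uniform expansion -/
theorem expand (B : ℝ) : ∃ n₀ : ℕ, ∀ n, n₀ ≤ n → ∀ x, ¬ Gd G A P x → B < ‖deriv G^[n] x‖ := by
  have hQG : ∀ q ∈ (∅ : Set ℂ), G q ∈ (∅ : Set ℂ) := fun q hq => absurd hq (notMem_empty q)
  have hcrit : ∀ c, deriv G c = 0 → Gd G A P c ∨ G c ∈ (∅ : Set ℂ) := fun c hc => Or.inl (hcg c hc)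
  set N : Set ℂ := {y | ¬ Gd G A P y} with hN
  have hcl : IsClosed N := (gd_open hG hR hGR hP hAP).isClosed_compl
  have hNc : IsCompact N := by
    refine (isCompact_closedBall (0 : ℂ) R).of_isClosed_subset hcl fun y hy => ?_
    rw [mem_closedBall_zero_iff]
    exact (bad_norm hR hGR hy).le
  have hNiter : ∀ y ∈ N, ∀ n, G^[n] y ∈ N := fun y hy n h => hy (gd_of_iter hG hP hAG n h)
  obtain ⟨D, hD0, hD, δ, hδ0, hδD, hδ⟩ := consts hG hR hGR hA hP hAG hAP hAgd hC
  set B' : ℝ := max B 1 with hB'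
  have hB'0 : 0 < B' := lt_of_lt_of_le one_pos (le_max_right _ _)
  obtain ⟨ρ, hρ, hblow⟩ := blow hG hR hGR hP hAG hQG hcrit hδ0 hδ (m := δ / B') (by positivity)
  have h1 : ∀ x : ℂ, ∃ n₀ : ℕ, ∀ n, n₀ ≤ n → ∀ x' ∈ N, dist x' x < ρ / 2 →
      B < ‖deriv G^[n] x'‖ := by
    intro x
    obtain ⟨q, hq, hqg⟩ : ∃ q ∈ ball x (ρ / 2), Gd G A P q := by
      by_contra hcon
      push Not at hcon
      exact empty_int' hG hR hGR hA hP hAG hAP hAgd hC Set.finite_empty hQG hcrit (M := 0)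
        (fun q hq => absurd hq (notMem_empty q)) (by positivity : 0 < ρ / 2) hcon
    obtain ⟨n₀, hn₀⟩ := Filter.eventually_atTop.mp (far hG hR hGR hP hAG hAP hD0 hD hqg)
    refine ⟨n₀, fun n hn x' hx' hd => ?_⟩
    by_contra hcon
    have h2 : δ / B' * ‖deriv G^[n] x'‖ ≤ δ := by
      rw [div_mul_eq_mul_div, div_le_iff₀ hB'0]
      exact mul_le_mul_of_nonneg_left ((not_lt.mp hcon).trans (le_max_left _ _)) hδ0.le
    have h3 := hblow n x' hx' δ hδ0 le_rfl (fun q hq => absurd hq (notMem_empty q)) h2 q (by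
      rw [mem_ball] at hq ⊢
      have := dist_triangle q x x'
      rw [dist_comm x x'] at this
      linarith)
    have h4 := hn₀ n hn _ (hNiter _ hx' n)
    rw [mem_ball] at h3
    linarith
  choose n₀ hn₀ using h1
  obtain ⟨t, -, ht⟩ := hNc.elim_nhds_subcover (fun y => ball y (ρ / 2))
    (fun y _ => ball_mem_nhds y (by positivity))
  refine ⟨t.sup n₀, fun n hn x hx => ?_⟩
  obtain ⟨z, hz, hxz⟩ := mem_iUnion₂.mp (ht hx)
  exact hn₀ z n ((Finset.le_sup hz).trans hn) x hx hxz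

include hG hR hGR hA hP hAG hAP hAgd hC hcg in
/-- exponential expansion -/
theorem expand_exp : ∃ c > 0, ∃ lam > 1, ∀ (n : ℕ) (x : ℂ), ¬ Gd G A P x →
    c * lam ^ n ≤ ‖deriv G^[n] x‖ := by
  obtain ⟨n₀, hn₀⟩ := expand hG hR hGR hA hP hAG hAP hAgd hC hcg 2
  set N : Set ℂ := {y | ¬ Gd G A P y} with hN
  have hcl : IsClosed N := (gd_open hG hR hGR hP hAP).isClosed_compl
  have hNc : IsCompact N := by
    refine (isCompact_closedBall (0 : ℂ) R).of_isClosed_subset hcl fun y hy => ?_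
    rw [mem_closedBall_zero_iff]
    exact (bad_norm hR hGR hy).le
  have hNiter : ∀ y ∈ N, ∀ n, G^[n] y ∈ N := fun y hy n h => hy (gd_of_iter hG hP hAG n h)
  have hG' : Continuous (deriv G) := by
    have h2 : ContDiff ℂ 2 G := hG.contDiff
    exact h2.differentiable_deriv_two.continuous
  obtain ⟨κ, hκ, hκN⟩ : ∃ κ > 0, ∀ y ∈ N, κ ≤ ‖deriv G y‖ := by
    rcases N.eq_empty_or_nonempty with he | hne
    · exact ⟨1, one_pos, fun y hy => by rw [he] at hy; exact absurd hy (notMem_empty y)⟩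
    · obtain ⟨y₀, hy₀, hmin⟩ := hNc.exists_isMinOn hne hG'.norm.continuousOn
      refine ⟨‖deriv G y₀‖, norm_pos_iff.mpr fun h0 => hy₀ (hcg _ h0), fun y hy => hmin hy⟩
  set κ' : ℝ := min κ 1 with hκ'
  have hκ'0 : 0 < κ' := lt_min hκ one_pos
  have hκ'1 : κ' ≤ 1 := min_le_right _ _
  have hlow : ∀ (j : ℕ) (x : ℂ), x ∈ N → κ' ^ j ≤ ‖deriv G^[j] x‖ := by
    intro j
    induction j with
    | zero => intro x _; simp
    | succ j ih =>
      intro x hx
      rw [Function.iterate_succ', deriv_comp _ (hG _) ((hG.iterate j) _), norm_mul, pow_succ,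
        mul_comm (κ' ^ j)]
      exact mul_le_mul ((min_le_left _ _).trans (hκN _ (hNiter x hx j))) (ih x hx)
        (by positivity) (norm_nonneg _)
  set p : ℕ := n₀ + 1 with hp
  have hblock : ∀ (k : ℕ) (x : ℂ), x ∈ N → (2 : ℝ) ^ k ≤ ‖deriv G^[p * k] x‖ := by
    intro k
    induction k with
    | zero => intro x _; simp
    | succ k ih =>
      intro x hx
      have e : G^[p * (k + 1)] = G^[p] ∘ G^[p * k] := by
        rw [← Function.iterate_add]; congr 1; ring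
      rw [e, deriv_comp _ ((hG.iterate p) _) ((hG.iterate (p * k)) _), norm_mul, pow_succ,
        mul_comm (2 ^ k : ℝ)]
      exact mul_le_mul (hn₀ p (by omega) _ (hNiter x hx _)).le (ih x hx) (by positivity)
        (norm_nonneg _)
  set lam : ℝ := (2 : ℝ) ^ (1 / (p : ℝ)) with hlam
  have hp0 : (0 : ℝ) < p := by rw [hp]; positivity
  have hlam1 : 1 < lam := Real.one_lt_rpow (by norm_num) (by positivity)
  have hlam0 : 0 < lam := by linarith
  have hlamp : lam ^ p = 2 := by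
    rw [hlam, ← Real.rpow_natCast, ← Real.rpow_mul (by norm_num)]
    rw [one_div, inv_mul_cancel₀ hp0.ne', Real.rpow_one]
  refine ⟨κ' ^ p / 2, by positivity, lam, hlam1, fun n x hx => ?_⟩
  have hn : n = n % p + p * (n / p) := (Nat.mod_add_div n p).symm
  have hmod : n % p < p := Nat.mod_lt _ (by omega)
  have h1 : ‖deriv G^[n] x‖ = ‖deriv G^[n % p] (G^[p * (n / p)] x)‖ *
      ‖deriv G^[p * (n / p)] x‖ := by
    have e : G^[n] = G^[n % p] ∘ G^[p * (n / p)] := by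
      rw [← Function.iterate_add, ← hn]
    rw [e, deriv_comp _ ((hG.iterate _) _) ((hG.iterate _) _), norm_mul]
  rw [h1]
  have h2 : κ' ^ p ≤ ‖deriv G^[n % p] (G^[p * (n / p)] x)‖ :=
    (pow_le_pow_of_le_one hκ'0.le hκ'1 hmod.le).trans (hlow _ _ (hNiter x hx _))
  have h3 := hblock (n / p) x hx
  have h4 : lam ^ n ≤ 2 * 2 ^ (n / p) := by
    calc lam ^ n = lam ^ (n % p) * (lam ^ p) ^ (n / p) := by
          conv_lhs => rw [hn]
          rw [pow_add, pow_mul]
      _ ≤ lam ^ p * (lam ^ p) ^ (n / p) := by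
          refine mul_le_mul_of_nonneg_right (pow_le_pow_right₀ hlam1.le hmod.le) (by positivity)
      _ = 2 * 2 ^ (n / p) := by rw [hlamp]
  calc κ' ^ p / 2 * lam ^ n ≤ κ' ^ p / 2 * (2 * 2 ^ (n / p)) :=
        mul_le_mul_of_nonneg_left h4 (by positivity)
    _ = κ' ^ p * 2 ^ (n / p) := by ring
    _ ≤ _ := mul_le_mul h2 h3 (by positivity) (norm_nonneg _)

include hG hR hGR hA hP hAG hAP hAgd hC hcg in
/-- If the `m`-th iterate of `z` is close to the bad set then `z` is exponentially close to it. -/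
theorem close_exp : ∃ τ > 0, ∃ C > 0, ∃ θ : ℝ, 0 < θ ∧ θ < 1 ∧ ∀ (m : ℕ) (z w : ℂ),
    ¬ Gd G A P w → dist (G^[m] z) w < τ → ∃ x, ¬ Gd G A P x ∧ dist z x ≤ C * θ ^ m := by
  have hQG : ∀ q ∈ (∅ : Set ℂ), G q ∈ (∅ : Set ℂ) := fun q hq => absurd hq (notMem_empty q)
  have hcrit : ∀ c, deriv G c = 0 → Gd G A P c ∨ G c ∈ (∅ : Set ℂ) := fun c hc => Or.inl (hcg c hc)
  obtain ⟨D, hD0, hD, δ, hδ0, hδD, hδ⟩ := consts hG hR hGR hA hP hAG hAP hAgd hC
  obtain ⟨c, hc, lam, hlam, hexp⟩ := expand_exp hG hR hGR hA hP hAG hAP hAgd hC hcg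
  have hlam0 : 0 < lam := by linarith
  refine ⟨δ / 4, by positivity, Real.exp 8 / c * δ, by positivity, lam⁻¹, by positivity,
    inv_lt_one_of_one_lt₀ hlam, fun m z w hw hd => ?_⟩
  set y := G^[m] z with hy
  have hsub : ball y (3 / 4 * δ) ⊆ ball w δ := by
    intro s hs
    rw [mem_ball] at hs ⊢
    have := dist_triangle s y w
    linarith
  obtain ⟨h, hdh, hyz, hinv⟩ := branch hG hR hGR (n := m) (y := y) (δ := 3 / 4 * δ) (by positivity)
    (fun z' hz' => nocrit hG hQG hcrit hδ hw le_rfl (fun q hq => absurd hq (notMem_empty q))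
      (hsub hz')) (x := z) rfl
  have hwb : w ∈ ball y (3 / 4 * δ) := by
    rw [mem_ball, dist_comm]; linarith
  have hi : InjOn h (ball y (3 / 4 * δ)) := by
    intro s hs t ht hst
    rw [← hinv s hs, ← hinv t ht, hst]
  set x := h w with hx
  have hGx : G^[m] x = w := hinv w hwb
  have hxN : ¬ Gd G A P x := fun hg => hw (by
    rw [← hGx]; exact gd_iter hG hAG hg m)
  refine ⟨x, hxN, ?_⟩
  -- derivative at `w`
  have hder : ‖deriv G^[m] x‖ * ‖deriv h w‖ = 1 := by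
    have h1 : HasDerivAt h (deriv h w) w :=
      (hdh.differentiableAt (isOpen_ball.mem_nhds hwb)).hasDerivAt
    have h2 : HasDerivAt (G^[m] ∘ h) (deriv G^[m] (h w) * deriv h w) w :=
      ((hG.iterate m) (h w)).hasDerivAt.comp w h1
    have h3 : G^[m] ∘ h =ᶠ[𝓝 w] id := by
      filter_upwards [isOpen_ball.mem_nhds hwb] with s hs using hinv s hs
    have h4 := (h2.congr_of_eventuallyEq h3.symm).unique (hasDerivAt_id w)
    rw [← norm_mul, h4, norm_one]
  have h5 : ‖deriv h w‖ ≤ 1 / c * (lam⁻¹) ^ m := by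
    have h6 := hexp m x hxN
    have h7 : 0 < c * lam ^ m := by positivity
    have h8 : ‖deriv h w‖ ≤ 1 / (c * lam ^ m) := by
      rw [le_div_iff₀ h7]
      calc ‖deriv h w‖ * (c * lam ^ m) ≤ ‖deriv h w‖ * ‖deriv G^[m] x‖ :=
            mul_le_mul_of_nonneg_left h6 (norm_nonneg _)
        _ = 1 := by rw [mul_comm]; exact hder
    rw [inv_pow]
    calc ‖deriv h w‖ ≤ 1 / (c * lam ^ m) := h8
      _ = 1 / c * (lam ^ m)⁻¹ := by field_simp
  have hδ' : (0 : ℝ) < 3 / 4 * δ := by positivity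
  have hwc : w ∈ closedBall y (3 / 4 * δ / 2) := by
    rw [mem_closedBall, dist_comm]; linarith
  have hyc : y ∈ closedBall y (3 / 4 * δ / 2) := mem_closedBall_self (by positivity)
  have h9 : ‖h w - h y‖ ≤ (‖deriv h w‖ * Real.exp 8) * ‖w - y‖ := by
    refine (convex_closedBall y (3 / 4 * δ / 2)).norm_image_sub_le_of_norm_hasDerivWithin_le
      (f := h) (f' := deriv h) (fun s hs => ?_) (fun s hs => distort hδ' hdh hi hwc hs) hyc hwc
    exact ((hdh.differentiableAt (isOpen_ball.mem_nhds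
      (closedBall_subset_ball (by linarith) hs))).hasDerivAt).hasDerivWithinAt
  rw [dist_comm, dist_eq_norm, hx, ← hyz]
  have h10 : ‖w - y‖ ≤ δ := by
    rw [← dist_eq_norm, dist_comm]; linarith
  calc ‖h w - h y‖ ≤ (‖deriv h w‖ * Real.exp 8) * ‖w - y‖ := h9
    _ ≤ (1 / c * (lam⁻¹) ^ m * Real.exp 8) * δ := by
        refine mul_le_mul ?_ h10 (norm_nonneg _) (by positivity)
        exact mul_le_mul_of_nonneg_right h5 (Real.exp_pos _).le
    _ = _ := by ring

end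

end Pool.Agent.Q186.AZ
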