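import Mathlib
import Pool.Agent.Q186.AZ.Exp
import Pool.Agent.H637R4.PO.COV
import Pool.Agent.H637R4.PO.HOLE
import Pool.Agent.H637R4.PO.THIRD
import Pool.Agent.H637R4.PO.SQ
import Pool.Agent.H637R4.PO.TREE
import Pool.Agent.H637R4.PO.HD

/-! Uniform porosity of the bad set of a hyperbolic map, covering numbers, dimension and the area of
the neighbourhoods (helper186). -/

set_option autoImplicit false

open Topology Filter Metric Set MeasureTheory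

namespace Pool.Agent.Q186.AZ

open Pool.Agent.H713R5.QJ Pool.Agent.H713R3.ZA Pool.Agent.H400R3.HI

open Pool.Agent.H637R4.PO in
theorem cov : S_COV := t_COV (t_HOLE t_THIRD) (t_SQ t_TREE)

open Pool.Agent.H637R4.PO (Por)

/-- uniformly porous sets have small covering numbers -/
theorem cov_of_por {N : Set ℂ} {R κ ρ₁ : ℝ} (hN : N ⊆ closedBall 0 R) (hκ : 0 < κ) (hκ1 : κ < 1)
    (hρ₁ : 0 < ρ₁) (hpor : ∀ x ∈ N, ∀ ρ, 0 < ρ → ρ < ρ₁ → Por N x ρ κ) :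
    ∃ ε : ℝ, 0 < ε ∧ ε < 2 ∧ ∃ K : ℝ, 0 < K ∧ ∀ n : ℕ, ∃ T : Finset ℂ,
      (T.card : ℝ) ≤ K * 2 ^ ((2 - ε) * n) ∧ ∀ x ∈ N, ∃ t ∈ T, dist x t ≤ (1 / 2 : ℝ) ^ n := by
  classical
  obtain ⟨ε, hε, hε2, hcov⟩ := cov κ hκ hκ1
  obtain ⟨j, hj⟩ := pow_unbounded_of_one_lt R (by norm_num : (1 : ℝ) < 2)
  have h2j : (0 : ℝ) < 2 ^ j := by positivity
  have h2jc : ((2 : ℂ) ^ j) ≠ 0 := pow_ne_zero j two_ne_zero
  have hnj : ‖(2 : ℂ) ^ j‖ = 2 ^ j := by rw [norm_pow, Complex.norm_ofNat]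
  set M : Set ℂ := {c | 2 ^ j * c ∈ N} with hM
  have hM2 : M ⊆ closedBall 0 2 := by
    intro c hc
    have h1 := hN hc
    rw [mem_closedBall_zero_iff, norm_mul, hnj] at h1
    rw [mem_closedBall_zero_iff]
    by_contra hlt
    rw [not_le] at hlt
    nlinarith
  obtain ⟨k₀, hk₀⟩ : ∃ k₀ : ℕ, ∀ k, k₀ ≤ k → 2 ^ j * (1 / 2 : ℝ) ^ k < ρ₁ := by
    have h1 : Tendsto (fun k : ℕ => 2 ^ j * (1 / 2 : ℝ) ^ k) atTop (𝓝 0) := by
      have := (tendsto_pow_atTop_nhds_zero_of_lt_one (r := (1 / 2 : ℝ)) (by norm_num)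
        (by norm_num)).const_mul ((2 : ℝ) ^ j)
      rwa [mul_zero] at this
    exact Filter.eventually_atTop.mp (h1.eventually (gt_mem_nhds hρ₁))
  obtain ⟨K, hK, hT⟩ := hcov M k₀ hM2
  have hpM : ∀ c ∈ M, ∀ k, k₀ ≤ k → Por M c ((1 / 2 : ℝ) ^ k) κ := by
    intro c hc k hk
    obtain ⟨g, hg1, hg2⟩ := hpor _ hc (2 ^ j * (1 / 2 : ℝ) ^ k) (by positivity) (hk₀ k hk)
    have hdist : ∀ u v : ℂ, dist (2 ^ j * u) (2 ^ j * v) = 2 ^ j * dist u v := by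
      intro u v
      rw [dist_eq_norm, dist_eq_norm, ← mul_sub, norm_mul, hnj]
    have hge : g = 2 ^ j * (g / 2 ^ j) := by field_simp
    refine ⟨g / 2 ^ j, ?_, ?_⟩
    · rw [mem_ball] at hg1 ⊢
      rw [hge, hdist] at hg1
      exact lt_of_mul_lt_mul_left hg1 h2j.le
    · rw [Set.disjoint_left] at hg2 ⊢
      intro v hv hvM
      refine hg2 (a := 2 ^ j * v) ?_ hvM
      rw [mem_ball] at hv ⊢
      rw [hge, hdist]
      calc 2 ^ j * dist v (g / 2 ^ j) < 2 ^ j * (κ * (1 / 2) ^ k) :=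
            mul_lt_mul_of_pos_left hv h2j
        _ = κ * (2 ^ j * (1 / 2) ^ k) := by ring
  have hcnt : ∀ c ∈ M, ∀ n : ℕ, (n : ℝ) / 2 - k₀ ≤ Pool.Agent.H637R4.PO.cnt M c κ n := by
    intro c hc n
    have h1 : n - k₀ ≤ Pool.Agent.H637R4.PO.cnt M c κ n := by
      unfold Pool.Agent.H637R4.PO.cnt
      have h2 : Finset.Ico k₀ n ⊆ (Finset.range n).filter fun k => Por M c ((1 / 2 : ℝ) ^ k) κ := by
        intro k hk
        rw [Finset.mem_Ico] at hk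
        rw [Finset.mem_filter, Finset.mem_range]
        exact ⟨hk.2, hpM c hc k hk.1⟩
      have h3 := Finset.card_le_card h2
      rw [Nat.card_Ico] at h3
      convert h3
    have h2 : (n : ℝ) ≤ (Pool.Agent.H637R4.PO.cnt M c κ n : ℝ) + k₀ := by
      exact_mod_cast (by omega : n ≤ Pool.Agent.H637R4.PO.cnt M c κ n + k₀)
    have h3 : (0 : ℝ) ≤ n := Nat.cast_nonneg n
    linarith
  refine ⟨ε, hε, hε2, K * 2 ^ ((2 - ε) * j), by positivity, fun n => ?_⟩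
  obtain ⟨T, hT1, hT2⟩ := hT (n + j)
  refine ⟨T.image fun t => 2 ^ j * t, ?_, fun x hx => ?_⟩
  · refine (by exact_mod_cast Finset.card_image_le : (((T.image fun t : ℂ => 2 ^ j * t).card : ℕ) : ℝ)
      ≤ (T.card : ℝ)).trans (hT1.trans (le_of_eq ?_))
    rw [mul_assoc, ← Real.rpow_add (by norm_num)]
    congr 2
    push_cast
    ring
  · have hxe : x = 2 ^ j * (x / 2 ^ j) := by field_simp
    have hxM : x / 2 ^ j ∈ M := by
      show 2 ^ j * (x / 2 ^ j) ∈ N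
      rw [← hxe]; exact hx
    obtain ⟨t, ht, hd⟩ := hT2 _ hxM (hcnt _ hxM (n + j))
    refine ⟨2 ^ j * t, Finset.mem_image_of_mem _ ht, ?_⟩
    rw [hxe, dist_eq_norm, ← mul_sub, norm_mul, hnj, ← dist_eq_norm]
    calc 2 ^ j * dist (x / 2 ^ j) t ≤ 2 ^ j * (1 / 2) ^ (n + j) :=
          mul_le_mul_of_nonneg_left hd h2j.le
      _ = (1 / 2) ^ n := by
          rw [pow_add, one_div, inv_pow, inv_pow]; field_simp

/-- the area of the neighbourhoods -/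
theorem area_of_cov {N : Set ℂ} {ε K : ℝ} (hε : 0 < ε) (hK : 0 < K)
    (hcov : ∀ n : ℕ, ∃ T : Finset ℂ, (T.card : ℝ) ≤ K * 2 ^ ((2 - ε) * n) ∧
      ∀ x ∈ N, ∃ t ∈ T, dist x t ≤ (1 / 2 : ℝ) ^ n) :
    ∃ K' : ℝ, 0 < K' ∧ ∀ η : ℝ, 0 < η → η ≤ 1 →
      volume {z : ℂ | ∃ x ∈ N, dist z x ≤ η} ≤ ENNReal.ofReal (K' * η ^ ε) := by
  refine ⟨K * (4 * Real.pi) * 2 ^ ε, by positivity, fun η hη hη1 => ?_⟩
  obtain ⟨n, hn1, hn2⟩ := exists_nat_pow_near_of_lt_one hη hη1 (by norm_num : (0 : ℝ) < 1 / 2)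
    (by norm_num)
  obtain ⟨T, hT1, hT2⟩ := hcov n
  have hsub : {z : ℂ | ∃ x ∈ N, dist z x ≤ η} ⊆ ⋃ t ∈ T, closedBall t (2 * (1 / 2 : ℝ) ^ n) := by
    rintro z ⟨x, hx, hzx⟩
    obtain ⟨t, ht, hd⟩ := hT2 x hx
    refine mem_iUnion₂.mpr ⟨t, ht, ?_⟩
    rw [mem_closedBall]
    have := dist_triangle z x t
    linarith
  refine (measure_mono hsub).trans ((measure_biUnion_finset_le T _).trans ?_)
  have hvol : ∀ t : ℂ, volume (closedBall t (2 * (1 / 2 : ℝ) ^ n)) =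
      ENNReal.ofReal ((4 * Real.pi) * ((1 / 2 : ℝ) ^ n) ^ 2) := by
    intro t
    rw [Complex.volume_closedBall, ← ENNReal.ofReal_pow (by positivity),
      ← ENNReal.ofReal_coe_nnreal, ← ENNReal.ofReal_mul (by positivity)]
    congr 1
    rw [NNReal.coe_real_pi]
    ring
  rw [Finset.sum_congr rfl (fun t _ => hvol t), Finset.sum_const, nsmul_eq_mul,
    ← ENNReal.ofReal_natCast, ← ENNReal.ofReal_mul (Nat.cast_nonneg _)]
  refine ENNReal.ofReal_le_ofReal ?_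
  have e1 : (2 : ℝ) ^ ((2 - ε) * n) * ((1 / 2 : ℝ) ^ n) ^ 2 = ((1 / 2 : ℝ) ^ n) ^ ε := by
    rw [← Real.rpow_natCast (1 / 2 : ℝ) n, ← Real.rpow_natCast ((1 / 2 : ℝ) ^ (n : ℝ)) 2,
      ← Real.rpow_mul (by norm_num), ← Real.rpow_mul (by norm_num), one_div,
      Real.inv_rpow (by norm_num), Real.inv_rpow (by norm_num), ← Real.rpow_neg (by norm_num),
      ← Real.rpow_neg (by norm_num), ← Real.rpow_add (by norm_num)]
    congr 1
    push_cast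
    ring
  have e2 : ((1 / 2 : ℝ) ^ n) ^ ε ≤ 2 ^ ε * η ^ ε := by
    rw [← Real.mul_rpow (by norm_num) hη.le]
    refine Real.rpow_le_rpow (by positivity) ?_ hε.le
    rw [pow_succ] at hn1
    linarith
  calc (T.card : ℝ) * (4 * Real.pi * ((1 / 2 : ℝ) ^ n) ^ 2)
      ≤ (K * 2 ^ ((2 - ε) * n)) * (4 * Real.pi * ((1 / 2 : ℝ) ^ n) ^ 2) :=
        mul_le_mul_of_nonneg_right hT1 (by positivity)
    _ = K * (4 * Real.pi) * (2 ^ ((2 - ε) * n) * ((1 / 2 : ℝ) ^ n) ^ 2) := by ring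
    _ ≤ K * (4 * Real.pi) * (2 ^ ε * η ^ ε) := by
        rw [e1]; exact mul_le_mul_of_nonneg_left e2 (by positivity)
    _ = _ := by ring

section

variable {G : ℂ → ℂ} (hG : Differentiable ℂ G) {R : ℝ} (hR : 0 < R)
  (hGR : ∀ w, R ≤ ‖w‖ → 2 * ‖w‖ ≤ ‖G w‖) {A : Set ℂ} (hA : A.Finite) {P : ℕ} (hP : 0 < P)
  (hAG : ∀ a ∈ A, G a ∈ A) (hAP : ∀ a ∈ A, G^[P] a = a ∧ ‖deriv G^[P] a‖ < 1)
  (hAgd : ∀ a ∈ A, Gd G A P a)
  (hC : {c | deriv G c = 0}.Finite) (hcg : ∀ c, deriv G c = 0 → Gd G A P c)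

include hG hR hGR hA hP hAG hAP hAgd hC hcg in
/-- uniform porosity -/
theorem por_unif : ∃ κ : ℝ, 0 < κ ∧ κ < 1 ∧ ∃ ρ₁ > 0, ∀ x, ¬ Gd G A P x → ∀ ρ, 0 < ρ → ρ < ρ₁ →
    Por {y | ¬ Gd G A P y} x ρ κ := by
  have hQG : ∀ q ∈ (∅ : Set ℂ), G q ∈ (∅ : Set ℂ) := fun q hq => absurd hq (notMem_empty q)
  have hcrit : ∀ c, deriv G c = 0 → Gd G A P c ∨ G c ∈ (∅ : Set ℂ) := fun c hc => Or.inl (hcg c hc)
  obtain ⟨D, hD0, hD, δ, hδ0, hδD, hδ⟩ := consts hG hR hGR hA hP hAG hAP hAgd hC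
  obtain ⟨c, hc, lam, hlam, hexp⟩ := expand_exp hG hR hGR hA hP hAG hAP hAgd hC hcg
  have hlam0 : 0 < lam := by linarith
  set N : Set ℂ := {y | ¬ Gd G A P y} with hN
  have hcl : IsClosed N := (gd_open hG hR hGR hP hAP).isClosed_compl
  have hNc : IsCompact N := by
    refine (isCompact_closedBall (0 : ℂ) R).of_isClosed_subset hcl fun y hy => ?_
    rw [mem_closedBall_zero_iff]
    exact (bad_norm hR hGR hy).le
  have hNiter : ∀ y ∈ N, ∀ n, G^[n] y ∈ N := fun y hy n h => hy (gd_of_iter hG hP hAG n h)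
  obtain ⟨ρh, hρh, hhole⟩ := holes hG hR hGR hA hP hAG hAP hAgd hC Set.finite_empty hQG hcrit
    (M := 0) (fun q hq => absurd hq (notMem_empty q)) hδ0
  have hG' : Continuous (deriv G) := by
    have h2 : ContDiff ℂ 2 G := hG.contDiff
    exact h2.differentiable_deriv_two.continuous
  obtain ⟨Λ, hΛ1, hΛ⟩ : ∃ Λ : ℝ, 1 ≤ Λ ∧ ∀ y ∈ N, ‖deriv G y‖ ≤ Λ := by
    obtain ⟨B, hB⟩ := hNc.exists_bound_of_continuousOn hG'.continuousOn
    exact ⟨max 1 B, le_max_left _ _, fun y hy => (hB y hy).trans (le_max_right _ _)⟩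
  have hΛ0 : 0 < Λ := by linarith
  have e8 : (0 : ℝ) < Real.exp 8 := Real.exp_pos _
  set κ₀ : ℝ := ρh * Real.exp (-16) / (4 * δ) with hκ₀
  have hκ₀0 : 0 < κ₀ := by positivity
  refine ⟨min (κ₀ / Λ) (1 / 2), by positivity, lt_of_le_of_lt (min_le_right _ _) (by norm_num),
    Real.exp 8 * δ, by positivity, fun x hx ρ hρ hρ1 => ?_⟩
  have hDpos : ∀ n, 0 < ‖deriv G^[n] x‖ := fun n =>
    lt_of_lt_of_le (by positivity) (hexp n x hx)
  -- the time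
  have hex : ∃ n : ℕ, Real.exp 8 * δ / ‖deriv G^[n] x‖ ≤ ρ := by
    obtain ⟨n, hn⟩ := pow_unbounded_of_one_lt (Real.exp 8 * δ / (ρ * c)) hlam
    refine ⟨n, ?_⟩
    rw [div_le_iff₀ (hDpos n)]
    rw [div_lt_iff₀ (by positivity)] at hn
    have := hexp n x hx
    nlinarith
  classical
  set n := Nat.find hex with hn
  have hn1 : Real.exp 8 * δ / ‖deriv G^[n] x‖ ≤ ρ := Nat.find_spec hex
  have hn0 : n ≠ 0 := by
    intro h0
    rw [h0] at hn1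
    simp at hn1
    linarith
  obtain ⟨k, hk⟩ : ∃ k, n = k + 1 := ⟨n - 1, by omega⟩
  have hn2 : ρ < Real.exp 8 * δ / ‖deriv G^[k] x‖ := by
    by_contra hcon
    exact Nat.find_min hex (by omega : k < Nat.find hex) (not_lt.mp hcon)
  have hn3 : ‖deriv G^[n] x‖ ≤ Λ * ‖deriv G^[k] x‖ := by
    rw [hk, Function.iterate_succ', deriv_comp _ (hG _) ((hG.iterate k) _), norm_mul]
    exact mul_le_mul_of_nonneg_right (hΛ _ (hNiter x hx k)) (norm_nonneg _)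
  set r : ℝ := Real.exp 8 * δ / ‖deriv G^[n] x‖ with hr
  have hrρ : ρ < Λ * r := by
    refine hn2.trans_le ?_
    rw [hr, div_le_iff₀ (hDpos k), mul_div_assoc', div_mul_eq_mul_div, le_div_iff₀ (hDpos n)]
    calc Real.exp 8 * δ * ‖deriv G^[n] x‖ ≤ Real.exp 8 * δ * (Λ * ‖deriv G^[k] x‖) :=
          mul_le_mul_of_nonneg_left hn3 (by positivity)
      _ = Λ * (Real.exp 8 * δ) * ‖deriv G^[k] x‖ := by ring
  -- the hole
  obtain ⟨h, hd, hy, hinv, -, hmul⟩ := pull hG hR hGR hP hAG hQG hcrit hδ hx hδ0 le_rfl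
    (fun q hq => absurd hq (notMem_empty q)) (n := n)
  have hi : InjOn h (ball (G^[n] x) δ) := by
    intro s hs t ht hst
    rw [← hinv s hs, ← hinv t ht, hst]
  obtain ⟨g, hg1, hg2, hg3⟩ := hhole _ (hNiter x hx n)
  have hp := por_of hδ0 hd hi (N := N) hρh hg1 hg2 (by
    intro s hs hsN
    have h1 := hNiter _ hsN n
    rw [hinv s (ball_subset_ball (by linarith) (hg2 hs))] at h1
    exact h1 (hg3 s hs))
  rw [hy] at hp
  have hr' : Real.exp 8 * ‖deriv h (G^[n] x)‖ * δ = r := by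
    have : ‖deriv h (G^[n] x)‖ = 1 / ‖deriv G^[n] x‖ := by
      rw [eq_div_iff (hDpos n).ne', mul_comm]; exact hmul
    rw [this, hr]; ring
  rw [hr', ← hκ₀] at hp
  obtain ⟨c', hc'1, hc'2⟩ := hp
  refine ⟨c', ball_subset_ball hn1 hc'1, hc'2.mono_left (ball_subset_ball ?_)⟩
  calc min (κ₀ / Λ) (1 / 2) * ρ ≤ κ₀ / Λ * (Λ * r) :=
        mul_le_mul (min_le_left _ _) hrρ.le hρ.le (by positivity)
    _ = κ₀ * r := by field_simp

include hG hR hGR hA hP hAG hAP hAgd hC hcg in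
/-- covering numbers of the bad set -/
theorem cov_unif : ∃ ε : ℝ, 0 < ε ∧ ε < 2 ∧ ∃ K : ℝ, 0 < K ∧ ∀ n : ℕ, ∃ T : Finset ℂ,
    (T.card : ℝ) ≤ K * 2 ^ ((2 - ε) * n) ∧
      ∀ x ∈ {y | ¬ Gd G A P y}, ∃ t ∈ T, dist x t ≤ (1 / 2 : ℝ) ^ n := by
  obtain ⟨κ, hκ, hκ1, ρ₁, hρ₁, h⟩ := por_unif hG hR hGR hA hP hAG hAP hAgd hC hcg
  exact cov_of_por (R := R) (fun y hy => by
    rw [mem_closedBall_zero_iff]
    exact (bad_norm hR hGR hy).le) hκ hκ1 hρ₁ h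

include hG hR hGR hA hP hAG hAP hAgd hC hcg in
/-- dimension of the bad set, and area of the points which stay close to it for a long time -/
theorem dim_area : ∃ τ > 0, ∃ d : ℝ, 0 ≤ d ∧ d < 2 ∧
    dimH {y | ¬ Gd G A P y} ≤ ENNReal.ofReal d ∧
    ∃ K : ℝ, 0 < K ∧ ∃ μ : ℝ, 0 < μ ∧ μ < 1 ∧ ∃ m₀ : ℕ, ∀ m, m₀ ≤ m →
      volume {z : ℂ | ∃ w, ¬ Gd G A P w ∧ dist (G^[m] z) w < τ} ≤ ENNReal.ofReal (K * μ ^ m) := by
  obtain ⟨τ, hτ, C, hC0, θ, hθ0, hθ1, hclose⟩ := close_exp hG hR hGR hA hP hAG hAP hAgd hC hcg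
  obtain ⟨ε, hε, hε2, K, hK, hcov⟩ := cov_unif hG hR hGR hA hP hAG hAP hAgd hC hcg
  obtain ⟨K', hK', harea⟩ := area_of_cov hε hK hcov
  refine ⟨τ, hτ, 2 - ε, by linarith, by linarith,
    Pool.Agent.H637R4.PO.t_HD _ _ K (by linarith) hcov, K' * C ^ ε, by positivity, θ ^ ε,
    by positivity, Real.rpow_lt_one hθ0.le hθ1 hε, ?_⟩
  have h1 : Tendsto (fun m : ℕ => C * θ ^ m) atTop (𝓝 0) := by
    have := (tendsto_pow_atTop_nhds_zero_of_lt_one hθ0.le hθ1).const_mul C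
    rwa [mul_zero] at this
  obtain ⟨m₀, hm₀⟩ := Filter.eventually_atTop.mp (h1.eventually (gt_mem_nhds one_pos))
  refine ⟨m₀, fun m hm => ?_⟩
  refine (measure_mono ?_).trans ((harea (C * θ ^ m) (by positivity) (hm₀ m hm).le).trans
    (le_of_eq ?_))
  · rintro z ⟨w, hw, hd⟩
    obtain ⟨x, hx, hzx⟩ := hclose m z w hw hd
    exact ⟨x, hx, hzx⟩
  · congr 1
    rw [Real.mul_rpow hC0.le (by positivity), mul_assoc, ← Real.rpow_natCast, ← Real.rpow_natCast,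
      ← Real.rpow_mul hθ0.le, ← Real.rpow_mul hθ0.le, mul_comm (m : ℝ) ε]

end

end Pool.Agent.Q186.AZ
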