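import Mathlib
import Pool.Agent.Q186.AZ.Por

/-! Uniform rates of escape and attraction for discs which are mapped away from the bad set
(helper186). -/

set_option autoImplicit false

open Topology Filter Metric Set MeasureTheory

namespace Pool.Agent.Q186.AZ

open Pool.Agent.H713R5.QJ Pool.Agent.H713R3.ZA Pool.Agent.H400R3.HI

/-- entire functions are Lipschitz on discs -/
theorem lip_cb {F : ℂ → ℂ} (hF : Differentiable ℂ F) (x : ℂ) (r : ℝ) :
    ∃ L : ℝ, 1 ≤ L ∧ ∀ u ∈ closedBall x r, ∀ v ∈ closedBall x r, dist (F u) (F v) ≤ L * dist u v := by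
  have hF' : Continuous (deriv F) := by
    have h2 : ContDiff ℂ 2 F := hF.contDiff
    exact h2.differentiable_deriv_two.continuous
  obtain ⟨B, hB⟩ := (isCompact_closedBall x r).exists_bound_of_continuousOn hF'.continuousOn
  refine ⟨max 1 B, le_max_left _ _, fun u hu v hv => ?_⟩
  rw [dist_eq_norm, dist_eq_norm]
  exact (convex_closedBall x r).norm_image_sub_le_of_norm_hasDerivWithin_le
    (f := F) (f' := deriv F) (fun z _ => (hF z).hasDerivAt.hasDerivWithinAt)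
    (fun z hz => (hB z hz).trans (le_max_right _ _)) hv hu

/-- rate of attraction near an attracted point -/
theorem att_rate {G : ℂ → ℂ} (hG : Differentiable ℂ G) {P : ℕ} (hP : 0 < P) {a : ℂ}
    (ha : G^[P] a = a) (hd : ‖deriv G^[P] a‖ < 1) {z : ℂ}
    (hz : Tendsto (fun k : ℕ => G^[P * k] z) atTop (𝓝 a)) :
    ∃ ρ > 0, ∃ J : ℕ, ∃ C : ℝ, 0 < C ∧ ∃ lam : ℝ, 0 < lam ∧ lam < 1 ∧ ∀ n, J ≤ n → ∀ w ∈ ball z ρ,
      dist (G^[n] w) (G^[n] a) ≤ C * lam ^ n := by
  obtain ⟨lam, hlam1, hlam2⟩ := exists_between hd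
  have hlam0 : 0 < lam := (norm_nonneg _).trans_lt hlam1
  -- contraction near `a`
  obtain ⟨r0, hr0, hr⟩ : ∃ r0 > 0, ∀ w ∈ ball a r0, dist (G^[P] w) a ≤ lam * dist w a := by
    have h1 := hasDerivAt_iff_isLittleO.mp ((hG.iterate P) a).hasDerivAt
    have h2 := h1.def (sub_pos.mpr hlam1)
    obtain ⟨r0, hr0, h3⟩ := Metric.mem_nhds_iff.mp h2
    refine ⟨r0, hr0, fun w hw => ?_⟩
    have h4 := h3 hw
    simp only [Set.mem_ofPred_eq, ha, smul_eq_mul] at h4
    rw [dist_eq_norm, dist_eq_norm]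
    calc ‖G^[P] w - a‖ = ‖(G^[P] w - a - (w - a) * deriv G^[P] a) + (w - a) * deriv G^[P] a‖ := by
          congr 1; ring
      _ ≤ ‖G^[P] w - a - (w - a) * deriv G^[P] a‖ + ‖(w - a) * deriv G^[P] a‖ := norm_add_le _ _
      _ ≤ (lam - ‖deriv G^[P] a‖) * ‖w - a‖ + ‖w - a‖ * ‖deriv G^[P] a‖ :=
          add_le_add h4 (norm_mul_le _ _)
      _ = lam * ‖w - a‖ := by ring
  have hpow : ∀ k : ℕ, ∀ w ∈ ball a r0, G^[P * k] w ∈ ball a r0 ∧
      dist (G^[P * k] w) a ≤ lam ^ k * dist w a := by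
    intro k
    induction k with
    | zero => intro w hw; simpa using hw
    | succ k ih =>
      intro w hw
      obtain ⟨h1, h2⟩ := ih w hw
      have h3 : G^[P * (k + 1)] w = G^[P] (G^[P * k] w) := by
        rw [← Function.iterate_add_apply]; congr 1; ring
      have h4 := hr _ h1
      rw [h3]
      refine ⟨?_, ?_⟩
      · rw [mem_ball] at h1 ⊢
        calc dist (G^[P] (G^[P * k] w)) a ≤ lam * dist (G^[P * k] w) a := h4
          _ ≤ 1 * dist (G^[P * k] w) a := mul_le_mul_of_nonneg_right hlam2.le dist_nonneg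
          _ < r0 := by rw [one_mul]; exact h1
      · calc dist (G^[P] (G^[P * k] w)) a ≤ lam * dist (G^[P * k] w) a := h4
          _ ≤ lam * (lam ^ k * dist w a) := mul_le_mul_of_nonneg_left h2 hlam0.le
          _ = lam ^ (k + 1) * dist w a := by ring
  have hfix : ∀ q : ℕ, G^[P * q] a = a := by
    intro q
    rw [Function.iterate_mul]
    exact Function.iterate_fixed ha q
  -- Lipschitz constants of the first iterates
  obtain ⟨L, hL1, hL⟩ : ∃ L : ℝ, 1 ≤ L ∧ ∀ j ∈ Finset.range P, ∀ u ∈ closedBall a r0,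
      dist (G^[j] u) (G^[j] a) ≤ L * dist u a := by
    have h1 : ∀ᶠ L : ℝ in atTop, ∀ j ∈ Finset.range P, ∀ u ∈ closedBall a r0,
        dist (G^[j] u) (G^[j] a) ≤ L * dist u a := by
      rw [Filter.eventually_all_finset]
      intro j _
      obtain ⟨L, -, hL⟩ := lip_cb (hG.iterate j) a r0
      filter_upwards [eventually_ge_atTop L] with L' hL' u hu
      exact (hL u hu a (mem_closedBall_self hr0.le)).trans
        (mul_le_mul_of_nonneg_right hL' dist_nonneg)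
    obtain ⟨L, h2, h3⟩ := ((eventually_ge_atTop 1).and h1).exists
    exact ⟨L, h2, h3⟩
  obtain ⟨K, hK⟩ := (hz.eventually (isOpen_ball.mem_nhds (mem_ball_self hr0))).exists
  obtain ⟨ρ, hρ, hball⟩ := Metric.mem_nhds_iff.mp
    ((hG.iterate (P * K)).continuous.continuousAt.preimage_mem_nhds (isOpen_ball.mem_nhds hK))
  have hp0 : (0 : ℝ) < P := by exact_mod_cast hP
  set mu : ℝ := lam ^ (1 / (P : ℝ)) with hmu
  have hmu0 : 0 < mu := by positivity
  have hmu1 : mu < 1 := Real.rpow_lt_one hlam0.le hlam2 (by positivity)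
  have hmup : mu ^ P = lam := by
    rw [hmu, ← Real.rpow_natCast, ← Real.rpow_mul hlam0.le, one_div, inv_mul_cancel₀ hp0.ne',
      Real.rpow_one]
  refine ⟨ρ, hρ, P * K, L * r0 / lam ^ (K + 1), by positivity, mu, hmu0, hmu1, fun n hn w hw => ?_⟩
  have hq1 : K ≤ n / P := (Nat.le_div_iff_mul_le hP).mpr (by rw [mul_comm]; exact hn)
  obtain ⟨t, ht⟩ : ∃ t, n / P = t + K := ⟨n / P - K, by omega⟩
  have hnn : n = n % P + P * t + P * K := by
    have := Nat.mod_add_div n P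
    rw [ht] at this
    rw [mul_add] at this
    omega
  have hmod : n % P < P := Nat.mod_lt _ hP
  have e1 : G^[n] w = G^[n % P] (G^[P * t] (G^[P * K] w)) := by
    rw [← Function.iterate_add_apply, ← Function.iterate_add_apply, ← hnn]
  have e2 : G^[n] a = G^[n % P] a := by
    conv_lhs => rw [← Nat.mod_add_div n P]
    rw [Function.iterate_add_apply, hfix]
  rw [e1, e2]
  have h5 : G^[P * K] w ∈ ball a r0 := hball hw
  have h6 := hpow t _ h5
  have h7 := hL (n % P) (Finset.mem_range.mpr hmod) _ (ball_subset_closedBall h6.1)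
  have h8 : lam ^ t * lam ^ (K + 1) ≤ mu ^ n := by
    have e3 : mu ^ n = mu ^ (n % P) * lam ^ (t + K) := by
      conv_lhs => rw [← Nat.mod_add_div n P, ht]
      rw [pow_add, pow_mul, hmup]
    rw [e3, ← pow_add, ← add_assoc, pow_succ, mul_comm]
    refine mul_le_mul_of_nonneg_right ?_ (by positivity)
    rw [← hmup]
    exact pow_le_pow_of_le_one hmu0.le hmu1.le hmod.le
  have h9 : lam ^ t ≤ mu ^ n / lam ^ (K + 1) := by
    rw [le_div_iff₀ (by positivity)]; exact h8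
  calc _ ≤ L * dist (G^[P * t] (G^[P * K] w)) a := h7
    _ ≤ L * (lam ^ t * dist (G^[P * K] w) a) := mul_le_mul_of_nonneg_left h6.2 (by linarith)
    _ ≤ L * (mu ^ n / lam ^ (K + 1) * r0) := by
        refine mul_le_mul_of_nonneg_left ?_ (by linarith)
        exact mul_le_mul h9 (mem_ball.mp h5).le dist_nonneg (by positivity)
    _ = _ := by ring

/-- the discs of radius `ρ` around `z` escape or are attracted at a uniform rate -/
def Fate (G : ℂ → ℂ) (A : Set ℂ) (R : ℝ) (z : ℂ) (ρ : ℝ) (J : ℕ) (C lam : ℝ) : Prop :=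
  (∀ w ∈ ball z ρ, ∀ k, J ≤ k → 2 ^ (k - J) * R ≤ ‖G^[k] w‖) ∨
    ∃ a ∈ A, ∀ w ∈ ball z ρ, ∀ k, J ≤ k → dist (G^[k] w) (G^[k] a) ≤ C * lam ^ k

section

variable {G : ℂ → ℂ} (hG : Differentiable ℂ G) {R : ℝ} (hR : 0 < R)
  (hGR : ∀ w, R ≤ ‖w‖ → 2 * ‖w‖ ≤ ‖G w‖) {A : Set ℂ} (hA : A.Finite) {P : ℕ} (hP : 0 < P)
  (hAG : ∀ a ∈ A, G a ∈ A) (hAP : ∀ a ∈ A, G^[P] a = a ∧ ‖deriv G^[P] a‖ < 1)

include hR in
theorem Fate.mono {z z' : ℂ} {ρ ρ' : ℝ} {J J' : ℕ} {C C' lam lam' : ℝ}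
    (h : Fate G A R z ρ J C lam) (hb : ball z' ρ' ⊆ ball z ρ) (hJ : J ≤ J') (hC0 : 0 < C)
    (hC : C ≤ C') (hl0 : 0 < lam) (hl : lam ≤ lam') : Fate G A R z' ρ' J' C' lam' := by
  rcases h with h | ⟨a, ha, h⟩
  · refine Or.inl fun w hw k hk => ?_
    refine le_trans ?_ (h w (hb hw) k (hJ.trans hk))
    exact mul_le_mul_of_nonneg_right (pow_le_pow_right₀ (by norm_num) (by omega)) hR.le
  · refine Or.inr ⟨a, ha, fun w hw k hk => (h w (hb hw) k (hJ.trans hk)).trans ?_⟩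
    exact mul_le_mul hC (pow_le_pow_left₀ hl0.le hl k) (by positivity) (by linarith)

include hG hR hGR hP hAP in
theorem fate_loc {z : ℂ} (hz : Gd G A P z) : ∃ ρ > 0, ∃ J : ℕ, ∃ C : ℝ, 0 < C ∧ ∃ lam : ℝ,
    0 < lam ∧ lam < 1 ∧ Fate G A R z ρ J C lam := by
  rcases hz with hz | ⟨a, ha, hz⟩
  · obtain ⟨ρ, hρ, h⟩ := unif_esc hG hR hGR hz
    obtain ⟨J, hJ⟩ := (h R).exists
    refine ⟨ρ, hρ, J, 1, one_pos, 1 / 2, by norm_num, by norm_num, Or.inl fun w hw k hk => ?_⟩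
    have h1 := pow_le_iter hR hGR (hJ w hw).le (k - J)
    rw [← Function.iterate_add_apply, show k - J + J = k by omega] at h1
    refine le_trans ?_ h1
    exact mul_le_mul_of_nonneg_left (hJ w hw).le (by positivity)
  · obtain ⟨ρ, hρ, J, C, hC, lam, hl0, hl1, h⟩ := att_rate hG hP (hAP a ha).1 (hAP a ha).2 hz
    exact ⟨ρ, hρ, J, C, hC, lam, hl0, hl1, Or.inr ⟨a, ha, fun w hw k hk => h k hk w hw⟩⟩

include hG hR hGR hP hAP in
theorem fate {τ : ℝ} (hτ : 0 < τ) : ∃ ρ : ℝ, 0 < ρ ∧ ρ ≤ 1 ∧ ∃ J : ℕ, ∃ C : ℝ, 0 < C ∧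
    ∃ lam : ℝ, 0 < lam ∧ lam < 1 ∧ ∀ z : ℂ, (∀ y, ¬ Gd G A P y → τ ≤ dist z y) →
      Fate G A R z ρ J C lam := by
  set K : Set ℂ := {z | z ∈ closedBall (0 : ℂ) (R + 1) ∧ ∀ y, ¬ Gd G A P y → τ ≤ dist z y} with hK
  have hKc : IsCompact K := by
    refine (isCompact_closedBall (0 : ℂ) (R + 1)).of_isClosed_subset ?_ fun z hz => hz.1
    have h1 : K = closedBall (0 : ℂ) (R + 1) ∩ ⋂ y : {y // ¬ Gd G A P y}, {z | τ ≤ dist z y} := by
      ext z
      simp only [hK, Set.mem_ofPred_eq, mem_inter_iff, mem_iInter, Subtype.forall]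
    rw [h1]
    exact isClosed_closedBall.inter (isClosed_iInter fun y =>
      isClosed_le continuous_const (continuous_id.dist continuous_const))
  have hKg : ∀ z ∈ K, Gd G A P z := by
    intro z hz
    by_contra hb
    have := hz.2 z hb
    rw [dist_self] at this
    linarith
  have hloc : ∀ z : ℂ, ∃ ρ > 0, ∃ J : ℕ, ∃ C : ℝ, 0 < C ∧ ∃ lam : ℝ,
      0 < lam ∧ lam < 1 ∧ (z ∈ K → Fate G A R z ρ J C lam) := by
    intro z
    by_cases hz : z ∈ K
    · obtain ⟨ρ, hρ, J, C, hC, lam, h0, h1, h⟩ := fate_loc hG hR hGR hP hAP (hKg z hz)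
      exact ⟨ρ, hρ, J, C, hC, lam, h0, h1, fun _ => h⟩
    · exact ⟨1, one_pos, 0, 1, one_pos, 1 / 2, by norm_num, by norm_num, fun h => absurd h hz⟩
  choose ρ hρ J C hC lam hl0 hl1 hF using hloc
  obtain ⟨t, htK, ht⟩ := hKc.elim_nhds_subcover (fun y => ball y (ρ y / 2))
    (fun y _ => ball_mem_nhds y (by have := hρ y; positivity))
  obtain ⟨ρ', hρ'1, hρ'2, hρ'0⟩ : ∃ ρ' : ℝ, (∀ y ∈ t, ρ' ≤ ρ y / 2) ∧ ρ' < 1 ∧ 0 < ρ' := by
    have h1 : ∀ᶠ r : ℝ in 𝓝[>] 0, ∀ y ∈ t, r ≤ ρ y / 2 := by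
      rw [Filter.eventually_all_finset]
      intro y _
      filter_upwards [Ioo_mem_nhdsGT (by have := hρ y; positivity : 0 < ρ y / 2)] with r hr
      exact hr.2.le
    have h2 : ∀ᶠ r : ℝ in 𝓝[>] 0, r < 1 := nhdsWithin_le_nhds (gt_mem_nhds one_pos)
    obtain ⟨r, ⟨h3, h4⟩, h5⟩ := ((h1.and h2).and self_mem_nhdsWithin).exists
    exact ⟨r, h3, h4, h5⟩
  obtain ⟨C', hC'0, hC'⟩ : ∃ C' : ℝ, 0 < C' ∧ ∀ y ∈ t, C y ≤ C' := by
    have h1 : ∀ᶠ r : ℝ in atTop, ∀ y ∈ t, C y ≤ r := by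
      rw [Filter.eventually_all_finset]
      intro y _
      exact eventually_ge_atTop _
    obtain ⟨r, h2, h3⟩ := ((eventually_gt_atTop 0).and h1).exists
    exact ⟨r, h2, h3⟩
  obtain ⟨l', hl'0, hl'1, hl'⟩ : ∃ l' : ℝ, 0 < l' ∧ l' < 1 ∧ ∀ y ∈ t, lam y ≤ l' := by
    have h1 : ∀ᶠ r : ℝ in 𝓝[<] 1, ∀ y ∈ t, lam y ≤ r := by
      rw [Filter.eventually_all_finset]
      intro y _
      filter_upwards [Ioo_mem_nhdsLT (hl1 y)] with r hr
      exact hr.1.le
    have h2 : ∀ᶠ r : ℝ in 𝓝[<] 1, r ∈ Ioo (0 : ℝ) 1 := Ioo_mem_nhdsLT one_pos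
    obtain ⟨r, h3, h4⟩ := (h2.and h1).exists
    exact ⟨r, h3.1, h3.2, h4⟩
  refine ⟨ρ', hρ'0, hρ'2.le, t.sup J, C', hC'0, l', hl'0, hl'1, fun z hz => ?_⟩
  by_cases hzR : z ∈ closedBall (0 : ℂ) (R + 1)
  · obtain ⟨y, hy, hzy⟩ := mem_iUnion₂.mp (ht ⟨hzR, hz⟩)
    refine (hF y (htK y hy)).mono hR (ball_subset_ball' ?_) (Finset.le_sup hy) (hC y) (hC' y hy)
      (hl0 y) (hl' y hy)
    rw [mem_ball] at hzy
    linarith [hρ'1 y hy]
  · refine Or.inl fun w hw k hk => ?_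
    rw [mem_closedBall_zero_iff, not_le] at hzR
    have h1 : R ≤ ‖w‖ := by
      rw [mem_ball, dist_eq_norm] at hw
      have := norm_sub_norm_le z w
      rw [norm_sub_rev] at this
      linarith
    refine le_trans ?_ (pow_le_iter hR hGR h1 k)
    exact mul_le_mul (pow_le_pow_right₀ (by norm_num) (by omega)) h1 hR.le (by positivity)

include hG hR hGR hP hAG hAP in
/-- discs of exponentially small radius which are mapped away from the bad set -/
theorem push {τ : ℝ} (hτ : 0 < τ) : ∃ ρ : ℝ, 0 < ρ ∧ ∃ L : ℝ, 1 ≤ L ∧ ∃ J : ℕ, ∃ C : ℝ, 0 < C ∧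
    ∃ lam : ℝ, 0 < lam ∧ lam < 1 ∧ ∀ (m : ℕ) (z : ℂ), (∀ y, ¬ Gd G A P y → τ ≤ dist (G^[m] z) y) →
      ∀ k, m + J ≤ k → (∀ w ∈ ball z (ρ / L ^ m), 2 ^ (k - (m + J)) * R ≤ ‖G^[k] w‖) ∨
        ∃ a ∈ A, ∀ w ∈ ball z (ρ / L ^ m), dist (G^[k] w) a ≤ C * lam ^ (k - m) := by
  obtain ⟨ρ, hρ, hρ1, J, C, hC, lam, hl0, hl1, hF⟩ := fate hG hR hGR (A := A) hP hAP hτ
  obtain ⟨B, hB⟩ := (isCompact_closedBall (0 : ℂ) (R + 1)).exists_bound_of_continuousOn
    hG.continuous.continuousOn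
  set R₂ : ℝ := max (R + 1) B with hR₂
  obtain ⟨L, hL1, hL⟩ := lip_cb hG 0 (R₂ + 1)
  have hL0 : 0 < L := by linarith
  refine ⟨ρ, hρ, L, hL1, J, C, hC, lam, hl0, hl1, fun m z hz k hk => ?_⟩
  have hstep : ∀ j, j ≤ m → (∀ i < j, ‖G^[i] z‖ ≤ R + 1) → ∀ w ∈ ball z (ρ / L ^ m),
      dist (G^[j] w) (G^[j] z) ≤ L ^ j * dist w z := by
    intro j
    induction j with
    | zero => intro _ _ w _; simp
    | succ j ih =>
      intro hj hi w hw
      have h1 := ih (by omega) (fun i hi' => hi i (by omega)) w hw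
      have h2 := hi j (by omega)
      have h3 : dist (G^[j] w) (G^[j] z) ≤ 1 := by
        refine h1.trans ?_
        rw [mem_ball] at hw
        calc L ^ j * dist w z ≤ L ^ m * (ρ / L ^ m) :=
              mul_le_mul (pow_le_pow_right₀ hL1 (by omega)) hw.le dist_nonneg (by positivity)
          _ = ρ := by field_simp
          _ ≤ 1 := hρ1
      have h4 : G^[j] z ∈ closedBall (0 : ℂ) (R₂ + 1) := by
        rw [mem_closedBall_zero_iff]
        have := le_max_left (R + 1) B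
        linarith
      have h5 : G^[j] w ∈ closedBall (0 : ℂ) (R₂ + 1) := by
        rw [mem_closedBall_zero_iff]
        rw [dist_eq_norm] at h3
        have h6 := norm_add_le (G^[j] w - G^[j] z) (G^[j] z)
        rw [sub_add_cancel] at h6
        have := le_max_left (R + 1) B
        linarith
      rw [Function.iterate_succ_apply', Function.iterate_succ_apply', pow_succ]
      calc dist (G (G^[j] w)) (G (G^[j] z)) ≤ L * dist (G^[j] w) (G^[j] z) := hL _ h5 _ h4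
        _ ≤ L * (L ^ j * dist w z) := mul_le_mul_of_nonneg_left h1 hL0.le
        _ = _ := by ring
  have hsmall : ∀ j, j ≤ m → (∀ i < j, ‖G^[i] z‖ ≤ R + 1) → ∀ w ∈ ball z (ρ / L ^ m),
      G^[j] w ∈ ball (G^[j] z) ρ := by
    intro j hj hi w hw
    rw [mem_ball]
    refine (hstep j hj hi w hw).trans_lt ?_
    rw [mem_ball] at hw
    calc L ^ j * dist w z ≤ L ^ m * dist w z :=
          mul_le_mul_of_nonneg_right (pow_le_pow_right₀ hL1 hj) dist_nonneg
      _ < L ^ m * (ρ / L ^ m) := mul_lt_mul_of_pos_left hw (by positivity)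
      _ = ρ := by field_simp
  by_cases hall : ∀ i < m, ‖G^[i] z‖ ≤ R + 1
  · have h1 := hsmall m le_rfl hall
    rcases hF _ hz with h | ⟨a, ha, h⟩
    · left
      intro w hw
      have h2 := h _ (h1 w hw) (k - m) (by omega)
      rw [← Function.iterate_add_apply, show k - m + m = k by omega,
        show k - m - J = k - (m + J) by omega] at h2
      exact h2
    · right
      refine ⟨G^[k - m] a, iter_mem hAG ha _, fun w hw => ?_⟩
      have h2 := h _ (h1 w hw) (k - m) (by omega)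
      rwa [← Function.iterate_add_apply, show k - m + m = k by omega] at h2
  · left
    push Not at hall
    classical
    set i := Nat.find hall with hi
    obtain ⟨hi1, hi2⟩ := Nat.find_spec hall
    rw [← hi] at hi1 hi2
    have hi3 : ∀ j < i, ‖G^[j] z‖ ≤ R + 1 := by
      intro j hj
      by_contra hcon
      exact Nat.find_min hall hj ⟨by omega, not_le.mp hcon⟩
    intro w hw
    have h1 := hsmall i hi1.le hi3 w hw
    have h2 : R ≤ ‖G^[i] w‖ := by
      rw [mem_ball, dist_eq_norm] at h1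
      have := norm_sub_norm_le (G^[i] z) (G^[i] w)
      rw [norm_sub_rev] at this
      linarith
    have h3 := pow_le_iter hR hGR h2 (k - i)
    rw [← Function.iterate_add_apply, show k - i + i = k by omega] at h3
    refine le_trans ?_ h3
    exact mul_le_mul (pow_le_pow_right₀ (by norm_num) (by omega)) h2 hR.le (by positivity)

end

end Pool.Agent.Q186.AZ
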