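import Pool.Agent.Q186.AZ.Poly

/-! `f (g^n (z)) + s` is hyperbolic for almost every `s` and all large `n`, when every critical
point of `g` is good or lands on a repelling cycle (helper186). -/

set_option autoImplicit false

open Topology Filter Metric Set MeasureTheory Polynomial

namespace Pool.Agent.Q186.AZ

open Pool.Agent.H713R5.QJ Pool.Agent.H713R3.ZA Pool.Agent.H400R3.HI

/-- every critical point is good or lands on a repelling cycle -/
def TC (g : ℂ[X]) : Prop :=
  ∀ c : ℂ, (derivative g).eval c = 0 → Good (ev g) c ∨ Land (ev g) c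

theorem orbit_finite {G : ℂ → ℂ} {c : ℂ} (h : Land G c) :
    (Set.range fun k : ℕ => G^[k] c).Finite := by
  obtain ⟨k, p, hp, hper, -⟩ := h
  refine ((Finset.range (k + p)).finite_toSet.image fun i => G^[i] c).subset ?_
  rintro _ ⟨i, rfl⟩
  by_cases hi : i < k
  · exact ⟨i, by simp only [Finset.coe_range, mem_Iio]; omega, rfl⟩
  · refine ⟨(i - k) % p + k, ?_, ?_⟩
    · have := Nat.mod_lt (i - k) hp
      simp only [Finset.coe_range, mem_Iio]; omega
    · show G^[(i - k) % p + k] c = G^[i] c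
      rw [Function.iterate_add_apply, ← orbit_per hper, ← Function.iterate_add_apply]
      congr 1
      omega

/-- the deterministic criterion -/
theorem main' {g : ℂ[X]} (hg : 2 ≤ g.natDegree) (hgl : TC g) {f : ℂ[X]} (hf : 1 ≤ f.natDegree)
    (hM : ∀ m ∈ Mk f g, Good (ev g) m) : ∀ᶠ n : ℕ in atTop, Hyp (f.comp (g.comp^[n] X)) := by
  have hG := ev_diff g
  have hφ := ev_diff f
  obtain ⟨c, hc, R1, hR1⟩ := lin_bound hf
  obtain ⟨R2, hR2⟩ := two_bound hg
  set R : ℝ := max 1 (max R1 R2) with hR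
  have hR0 : 0 < R := lt_of_lt_of_le one_pos (le_max_left _ _)
  have hφR := hR1 R ((le_max_left _ _).trans (le_max_right _ _))
  have hGR := hR2 R ((le_max_right _ _).trans (le_max_right _ _))
  have hA := sinks_finite hg
  obtain ⟨P, hP, hAP⟩ := common_period hG hA
  have hAG : ∀ a ∈ sinks (ev g), ev g a ∈ sinks (ev g) := fun a ha => map_sinks hG ha
  have hgd : ∀ z, Good (ev g) z → Gd (ev g) (sinks (ev g)) P z := fun z hz =>
    (good_iff hG hP hAP z).mpr hz
  have hgood : ∀ a ∈ sinks (ev g), Gd (ev g) (sinks (ev g)) P (ev f a) := fun a ha =>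
    hgd _ (hM _ (Or.inr (Or.inr ⟨a, ha, rfl⟩)))
  have h1 : ∀ᶠ n : ℕ in atTop, ∀ y ∈ {y : ℂ | (derivative f).eval y = 0},
      Good (ev f ∘ (ev g)^[n]) (ev f y) :=
    (Filter.eventually_all_finite (crit_finite hf)).mpr fun y hy =>
      mark_ev hG hφ hR0 hc hGR hφR hA hP hAG hAP hgood (hgd _ (hM _ (Or.inl ⟨y, hy, rfl⟩)))
  have h2 : ∀ᶠ n : ℕ in atTop, ∀ z ∈ {z : ℂ | (derivative g).eval z = 0}, ∀ k : ℕ, 1 ≤ k →
      Good (ev f ∘ (ev g)^[n]) (ev f ((ev g)^[k] z)) := by
    refine (Filter.eventually_all_finite (crit_finite (by omega))).mpr fun z hz => ?_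
    rcases hgl z hz with hgz | hlz
    · exact orbit_ev hG hφ hR0 hc hGR hφR hA hP hAG hAP hgood (hgd _ hgz) fun k hk =>
        hgd _ (hM _ (Or.inr (Or.inl ⟨z, k, hz, hk, rfl⟩)))
    · have hfin := orbit_finite hlz
      have h3 : ∀ᶠ n : ℕ in atTop, ∀ w ∈ Set.range (fun k : ℕ => (ev g)^[k] z),
          (∃ k, 1 ≤ k ∧ (ev g)^[k] z = w) → Good (ev f ∘ (ev g)^[n]) (ev f w) := by
        refine (Filter.eventually_all_finite hfin).mpr fun w _ => ?_
        by_cases hw : ∃ k, 1 ≤ k ∧ (ev g)^[k] z = w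
        · obtain ⟨k, hk, rfl⟩ := hw
          filter_upwards [mark_ev hG hφ hR0 hc hGR hφR hA hP hAG hAP hgood
            (hgd _ (hM _ (Or.inr (Or.inl ⟨z, k, hz, hk, rfl⟩))))] with n hn _
          exact hn
        · exact Filter.Eventually.of_forall fun n h => absurd h hw
      filter_upwards [h3] with n hn k hk
      exact hn _ ⟨k, rfl⟩ ⟨k, hk, rfl⟩
  filter_upwards [h1, h2] with n hn1 hn2 x hx
  have hx' : deriv (ev f ∘ (ev g)^[n]) x = 0 := by
    rw [← ev_comp]
    have : deriv (ev (f.comp (g.comp^[n] X))) x =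
        (derivative (f.comp (g.comp^[n] X))).eval x := Polynomial.deriv _
    rw [this, hx]
  rw [ev_comp]
  apply good_of_map (hφ.comp (hG.iterate n))
  rw [deriv_comp _ (hφ _) ((hG.iterate n) _), mul_eq_zero] at hx'
  rcases hx' with h | h
  · have h3 : (derivative f).eval ((ev g)^[n] x) = 0 := by
      rw [← h]; exact (Polynomial.deriv _).symm
    exact hn1 _ h3
  · obtain ⟨j, hj, h3⟩ := exists_crit_iter hG n h
    have h4 : (derivative g).eval ((ev g)^[j] x) = 0 := by
      rw [← h3]; exact (Polynomial.deriv _).symm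
    have h5 := hn2 _ h4 (n - j) (by omega)
    rw [← Function.iterate_add_apply, show n - j + j = n by omega] at h5
    exact h5

theorem iter_ae {g : ℂ[X]} (hg : 2 ≤ g.natDegree) (hgl : TC g) {f : ℂ[X]} (hf : 1 ≤ f.natDegree) :
    ∀ᵐ s : ℂ, ∀ᶠ n : ℕ in atTop, Hyp (f.comp (g.comp^[n] X) + C s) := by
  have hvol := poly_null hg hgl
  have h1 : ∀ᵐ s : ℂ, ∀ m ∈ Mk f g, Good (ev g) (m + s) := by
    rw [ae_ball_iff (mk_countable hg hf)]
    intro m _
    rw [ae_iff]
    exact (measure_preimage_add volume m {z : ℂ | ¬ Good (ev g) z}).trans hvol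
  filter_upwards [h1] with s hs
  have hf' : 1 ≤ (f + C s).natDegree := by rwa [natDegree_add_C]
  have h2 := main' hg hgl hf' fun m hm => by
    have := hs _ (mk_add_C f g s hm)
    rwa [sub_add_cancel] at this
  filter_upwards [h2] with n hn
  rwa [add_comp, C_comp] at hn

end Pool.Agent.Q186.AZ
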