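import Mathlib
import Pool.Agent.Q186.AZ.Area

/-! Zero area for polynomials all of whose critical points are good or land on repelling cycles
(helper186). -/

set_option autoImplicit false

open Topology Filter Metric Set MeasureTheory Polynomial

namespace Pool.Agent.Q186.AZ

open Pool.Agent.H713R5.QJ Pool.Agent.H713R3.ZA Pool.Agent.H400R3.HI

/-- `c` lands on a repelling periodic point -/
def Land (G : ℂ → ℂ) (c : ℂ) : Prop :=
  ∃ k p : ℕ, 0 < p ∧ G^[p] (G^[k] c) = G^[k] c ∧ 1 < ‖deriv G^[p] (G^[k] c)‖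

theorem orbit_per {G : ℂ → ℂ} {e : ℂ} {p : ℕ} (he : G^[p] e = e) (i : ℕ) :
    G^[i] e = G^[i % p] e := by
  conv_lhs => rw [← Nat.mod_add_div i p]
  rw [Function.iterate_add_apply, Function.iterate_mul]
  congr 1
  exact Function.iterate_fixed he _

theorem deriv_cycle {G : ℂ → ℂ} (hG : Differentiable ℂ G) {e : ℂ} {M : ℕ} (hM : 0 < M)
    (he : G^[M] e = e) (hd : deriv G^[M] e ≠ 0) (j : ℕ) :
    deriv G^[M] (G^[j] e) = deriv G^[M] e := by
  have h1 : deriv (G^[M] ∘ G^[j]) e = deriv G^[M] (G^[j] e) * deriv G^[j] e :=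
    deriv_comp _ ((hG.iterate M) _) ((hG.iterate j) _)
  have h2 : deriv (G^[j] ∘ G^[M]) e = deriv G^[j] (G^[M] e) * deriv G^[M] e :=
    deriv_comp _ ((hG.iterate j) _) ((hG.iterate M) _)
  have h3 : G^[M] ∘ G^[j] = G^[j] ∘ G^[M] := by
    rw [← Function.iterate_add, ← Function.iterate_add, add_comm]
  have hj : deriv G^[j] e ≠ 0 := by
    have h4 : HasDerivAt (G^[M])^[j] ((deriv G^[M] e) ^ j) e :=
      HasDerivAt.iterate _ ((hG.iterate M) e).hasDerivAt he j
    rw [← Function.iterate_mul] at h4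
    have h5 : j ≤ M * j := Nat.le_mul_of_pos_left j hM
    have h6 : G^[M * j] = G^[M * j - j] ∘ G^[j] := by
      rw [← Function.iterate_add]; congr 1; omega
    have h7 := h4.deriv
    rw [h6, deriv_comp _ ((hG.iterate _) _) ((hG.iterate j) _)] at h7
    intro h0
    rw [h0, mul_zero] at h7
    exact pow_ne_zero j hd h7.symm
  rw [h3, h2, he] at h1
  have h8 : deriv G^[M] (G^[j] e) * deriv G^[j] e = deriv G^[M] e * deriv G^[j] e := by
    rw [← h1]; ring
  exact mul_right_cancel₀ hj h8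

theorem fib_countable {T : ℂ[X]} (hT : 1 ≤ T.natDegree) (n : ℕ) (q : ℂ) :
    {z | (ev T)^[n] z = q}.Countable := by
  induction n with
  | zero => simp
  | succ n ih =>
    have h : {z | (ev T)^[n + 1] z = q} ⊆ ⋃ w ∈ {z | (ev T)^[n] z = q}, {z | ev T z = w} := by
      intro z hz
      rw [Set.mem_ofPred_eq, Function.iterate_succ_apply] at hz
      exact mem_iUnion₂.mpr ⟨ev T z, hz, rfl⟩
    refine Set.Countable.mono h (ih.biUnion fun w _ => Set.Finite.countable ?_)
    have h0 : T - C w ≠ 0 := by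
      intro h0
      rw [sub_eq_zero] at h0
      rw [h0, natDegree_C] at hT
      omega
    refine (Finset.finite_toSet (T - C w).roots.toFinset).subset fun z hz => ?_
    rw [Finset.mem_coe, Multiset.mem_toFinset, mem_roots h0]
    show (T - C w).eval z = 0
    rw [eval_sub, eval_C, sub_eq_zero]
    exact hz

/-- The points which neither escape nor are attracted by a sink have zero area. -/
theorem poly_null {T : ℂ[X]} (hT : 2 ≤ T.natDegree)
    (h : ∀ c, (derivative T).eval c = 0 → Good (ev T) c ∨ Land (ev T) c) :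
    volume {z : ℂ | ¬ Good (ev T) z} = 0 := by
  classical
  have hG := ev_diff T
  obtain ⟨R2, hR2⟩ := two_bound hT
  set R : ℝ := max 1 R2 with hR
  have hR0 : 0 < R := lt_of_lt_of_le one_pos (le_max_left _ _)
  have hGR := hR2 R (le_max_right _ _)
  have hA := sinks_finite hT
  obtain ⟨P, hP, hAP⟩ := common_period hG hA
  have hAG : ∀ a ∈ sinks (ev T), ev T a ∈ sinks (ev T) := fun a ha => map_sinks hG ha
  have hset : {z | ¬ Good (ev T) z} = {z | ¬ Gd (ev T) (sinks (ev T)) P z} := by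
    ext z
    exact not_congr (good_iff hG hP hAP z).symm
  rw [hset]
  set G := ev T with hGdef
  have hder : ∀ z, deriv G z = (derivative T).eval z := fun z => Polynomial.deriv _
  have hCeq : {c | deriv G c = 0} = {z : ℂ | (derivative T).eval z = 0} := by
    ext c; show deriv G c = 0 ↔ _; rw [hder]; rfl
  have hC : {c | deriv G c = 0}.Finite := by rw [hCeq]; exact crit_finite (by omega)
  set S : Set ℂ := {c | deriv G c = 0 ∧ Land G c} with hS
  have hSf : S.Finite := hC.subset fun c hc => hc.1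
  choose! k p hp hper hmul using fun (c : ℂ) (hc : c ∈ S) => hc.2
  set Q : Set ℂ := {q | ∃ c ∈ S, ∃ i : ℕ, q = G^[i + 1] c} with hQdef
  have hQ : Q.Finite := by
    have : Q ⊆ ⋃ c ∈ S, (fun i => G^[i] c) '' ((Finset.range (k c + p c + 1) : Finset ℕ) : Set ℕ) := by
      rintro q ⟨c, hc, i, rfl⟩
      refine mem_iUnion₂.mpr ⟨c, hc, ?_⟩
      by_cases hi : i + 1 < k c
      · exact ⟨i + 1, by simp only [Finset.coe_range, mem_Iio]; omega, rfl⟩
      · refine ⟨(i + 1 - k c) % p c + k c, ?_, ?_⟩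
        · have := Nat.mod_lt (i + 1 - k c) (hp c hc)
          simp only [Finset.coe_range, mem_Iio]; omega
        · show G^[(i + 1 - k c) % p c + k c] c = G^[i + 1] c
          rw [Function.iterate_add_apply, ← orbit_per (hper c hc), ← Function.iterate_add_apply]
          congr 1
          omega
    exact (hSf.biUnion fun c _ => (Finset.finite_toSet _).image _).subset this
  have hQG : ∀ q ∈ Q, G q ∈ Q := by
    rintro q ⟨c, hc, i, rfl⟩
    exact ⟨c, hc, i + 1, (Function.iterate_succ_apply' G (i + 1) c).symm⟩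
  have hcrit : ∀ c, deriv G c = 0 → Gd G (sinks G) P c ∨ G c ∈ Q := by
    intro c hc
    rcases h c (by rw [← hder]; exact hc) with hg | hl
    · exact Or.inl ((good_iff hG hP hAP c).mpr hg)
    · exact Or.inr ⟨c, ⟨hc, hl⟩, 0, rfl⟩
  -- the exponent `M`
  obtain ⟨l, hl1, hl⟩ : ∃ l : ℕ, 1 ≤ l ∧ ∀ c ∈ S, 2 ≤ ‖deriv G^[p c] (G^[k c] c)‖ ^ l := by
    have h1 : ∀ᶠ l : ℕ in atTop, ∀ c ∈ S, 2 ≤ ‖deriv G^[p c] (G^[k c] c)‖ ^ l := by
      rw [Filter.eventually_all_finite hSf]
      intro c hc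
      exact (tendsto_pow_atTop_atTop_of_one_lt (hmul c hc)).eventually_ge_atTop 2
    obtain ⟨l, h2, h3⟩ := ((eventually_ge_atTop 1).and h1).exists
    exact ⟨l, h2, h3⟩
  set Pi0 : ℕ := ∏ c ∈ hSf.toFinset, p c with hPe
  have hPz : 0 < Pi0 := Finset.prod_pos fun c hc => hp c (hSf.mem_toFinset.mp hc)
  have hM0 : 0 < Pi0 * l := Nat.mul_pos hPz (by omega)
  have hMc : ∀ c ∈ S, G^[Pi0 * l] (G^[k c] c) = G^[k c] c ∧ 2 ≤ ‖deriv G^[Pi0 * l] (G^[k c] c)‖ := by
    intro c hc
    obtain ⟨m, hm⟩ := Finset.dvd_prod_of_mem p (hSf.mem_toFinset.mpr hc)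
    have hm' : Pi0 = p c * m := hm
    have hm0 : m ≠ 0 := by rintro rfl; simp [hm'] at hPz
    have e : Pi0 * l = p c * (m * l) := by rw [hm']; ring
    rw [e]
    refine ⟨by rw [Function.iterate_mul]; exact Function.iterate_fixed (hper c hc) _, ?_⟩
    have h1 : HasDerivAt (G^[p c])^[m * l] ((deriv G^[p c] (G^[k c] c)) ^ (m * l)) (G^[k c] c) :=
      HasDerivAt.iterate _ ((hG.iterate (p c)) _).hasDerivAt (hper c hc) (m * l)
    rw [Function.iterate_mul, h1.deriv, norm_pow]
    refine (hl c hc).trans ?_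
    exact pow_le_pow_right₀ (hmul c hc).le (Nat.le_mul_of_pos_left l (by omega))
  have hQM : ∀ q ∈ Q, ∃ k, ∀ j, k ≤ j → 2 ≤ ‖deriv G^[Pi0 * l] (G^[j] q)‖ := by
    rintro q ⟨c, hc, i, rfl⟩
    refine ⟨k c, fun j hj => ?_⟩
    obtain ⟨h1, h2⟩ := hMc c hc
    have hne : deriv G^[Pi0 * l] (G^[k c] c) ≠ 0 := by
      intro h0
      rw [h0, norm_zero] at h2
      linarith
    have h3 := deriv_cycle hG hM0 h1 hne (j + (i + 1) - k c)
    rw [← Function.iterate_add_apply, show j + (i + 1) - k c + k c = j + (i + 1) by omega] at h3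
    rw [← Function.iterate_add_apply, h3]
    exact h2
  have hAgd : ∀ a ∈ sinks G, Gd G (sinks G) P a := by
    intro a ha
    refine Or.inr ⟨a, ha, ?_⟩
    have h1 : ∀ k : ℕ, G^[P * k] a = a := fun k => by
      rw [Function.iterate_mul]; exact Function.iterate_fixed (hAP a ha).1 k
    simp only [h1]
    exact tendsto_const_nhds
  exact bad_null hG hR0 hGR hA hP hAG hAP hAgd hC hQ hQG hcrit hQM
    fun n q _ => fib_countable (by omega) n q

end Pool.Agent.Q186.AZ
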