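import Mathlib
import Pool.Agent.Q186.AZ.Fate
import Pool.Agent.Q186.AZ.Iter

/-! The hyperbolicity criterion for `f (g^n (z)) + s`, uniformly in `s` (helper186). -/

set_option autoImplicit false

open Topology Filter Metric Set MeasureTheory

namespace Pool.Agent.Q186.AZ

open Pool.Agent.H713R5.QJ Pool.Agent.H713R3.ZA Pool.Agent.H400R3.HI

/-- the exponents -/
theorem expo {L lam : ℝ} (hL : 1 ≤ L) (hl0 : 0 < lam) (hl1 : lam < 1) : ∃ q : ℕ, 2 ≤ q ∧
    (∀ n : ℕ, n ≤ 3 * (n - n / q)) ∧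
    Tendsto (fun n : ℕ => L ^ (n / q) * lam ^ (n - n / q)) atTop (𝓝 0) := by
  have hL0 : 0 < L := by linarith
  obtain ⟨p, hp⟩ := exists_pow_lt_of_lt_one (one_div_pos.mpr hL0) hl1
  set p' := p + 1 with hp'
  have hpL : lam ^ p' * L ≤ 1 := by
    have h1 : lam ^ p' ≤ 1 / L := by
      refine le_trans ?_ hp.le
      exact pow_le_pow_of_le_one hl0.le hl1.le (by omega)
    rwa [le_div_iff₀ hL0] at h1
  have key : ∀ n : ℕ, p' * (n / (2 * p' + 1)) ≤ n - n / (2 * p' + 1) ∧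
      n ≤ 3 * (n - n / (2 * p' + 1) - p' * (n / (2 * p' + 1))) := by
    intro n
    have h1 : (2 * p' + 1) * (n / (2 * p' + 1)) ≤ n := Nat.mul_div_le n _
    set m := n / (2 * p' + 1) with hm
    have h2 : m ≤ p' * m := Nat.le_mul_of_pos_left m (by omega)
    have h3 : (2 * p' + 1) * m = 2 * (p' * m) + m := by ring
    rw [h3] at h1
    omega
  refine ⟨2 * p' + 1, by omega, fun n => ?_, ?_⟩
  · have := key n
    omega
  · have h1 : Tendsto (fun n : ℕ => lam ^ (n - n / (2 * p' + 1) - p' * (n / (2 * p' + 1)))) atTop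
        (𝓝 0) := by
      refine (tendsto_pow_atTop_nhds_zero_of_lt_one hl0.le hl1).comp ?_
      refine tendsto_atTop.mpr fun b => ?_
      filter_upwards [eventually_ge_atTop (3 * b)] with n hn
      have := (key n).2
      omega
    refine squeeze_zero (fun n => by positivity) (fun n => ?_) h1
    have h2 := (key n).1
    set m := n / (2 * p' + 1) with hm
    have e : lam ^ (n - m) = lam ^ (p' * m) * lam ^ (n - m - p' * m) := by
      rw [← pow_add]; congr 1; omega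
    rw [e, ← mul_assoc]
    refine mul_le_of_le_one_left (by positivity) ?_
    rw [pow_mul, ← mul_pow, mul_comm]
    exact pow_le_one₀ (by positivity) hpL

section
variable {G φ : ℂ → ℂ} (hG : Differentiable ℂ G) (hφ : Differentiable ℂ φ) {R c : ℝ} (hR : 0 < R)
  (hc : 0 < c) (hGR : ∀ w, R ≤ ‖w‖ → 2 * ‖w‖ ≤ ‖G w‖) (hφR : ∀ w, R ≤ ‖w‖ → c * ‖w‖ ≤ ‖φ w‖)
  {A : Set ℂ} (hA : A.Finite)

include hG hφ hR hc hGR hφR hA in
/-- the uniform criterion, for one iterate -/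
theorem uni_one {S ρ L C lam B : ℝ} {m n : ℕ} (hρ : 0 < ρ) (hL : 1 ≤ L) {Far : ℂ → Prop}
    (hfar : ∀ z, Far z → (∀ w ∈ ball z (ρ / L ^ m), B ≤ ‖G^[n] w‖) ∨
        ∃ a ∈ A, ∀ w ∈ ball z (ρ / L ^ m), dist (G^[n] w) a ≤ C * lam ^ (n - m))
    (hB1 : R ≤ B) (hB2 : R + S ≤ c * B) (h1 : 2 + S / R ≤ c * 2 ^ n)
    {Lf : ℝ} (hLf : 1 ≤ Lf) (hLf' : ∀ a ∈ A, ∀ u, dist u a ≤ 1 → dist (φ u) (φ a) ≤ Lf * dist u a)
    (h2 : C * lam ^ (n - m) ≤ 1) (h3 : Lf * (C * lam ^ (n - m)) < ρ / L ^ m / 8)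
    {s : ℂ} (hs : ‖s‖ ≤ S) (hAs : ∀ a ∈ A, Far (φ a + s)) {v : ℂ} (hv : R ≤ ‖v‖ ∨ Far v) :
    Good ((fun z => φ z + s) ∘ G^[n]) v := by
  have hS : 0 ≤ S := (norm_nonneg _).trans hs
  set Φ : ℂ → ℂ := (fun z => φ z + s) ∘ G^[n] with hΦ
  have hΦd : Differentiable ℂ Φ := (hφ.add_const s).comp (hG.iterate n)
  have hL0 : 0 < L := by linarith
  set r : ℝ := ρ / L ^ m with hr
  have hr0 : 0 < r := by positivity
  have hlow : ∀ w, R ≤ ‖G^[n] w‖ → c * ‖G^[n] w‖ - S ≤ ‖Φ w‖ := by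
    intro w hw
    have h4 := hφR _ hw
    have h5 : ‖φ (G^[n] w)‖ ≤ ‖Φ w‖ + ‖s‖ := by
      have : φ (G^[n] w) = Φ w - s := by simp [hΦ]
      rw [this]
      exact norm_sub_le _ _
    linarith
  have hSR : S = S / R * R := by field_simp
  have hSR0 : 0 ≤ S / R := by positivity
  have hlarge : ∀ w, R ≤ ‖w‖ → 2 * ‖w‖ ≤ ‖Φ w‖ := by
    intro w hw
    have h4 := pow_le_iter hR hGR hw n
    have h5 : R ≤ ‖G^[n] w‖ := by
      refine hw.trans (le_trans ?_ h4)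
      have : (1 : ℝ) ≤ 2 ^ n := one_le_pow₀ (by norm_num)
      nlinarith [norm_nonneg w]
    have h6 := hlow w h5
    have h7 : (2 + S / R) * ‖w‖ ≤ c * ‖G^[n] w‖ := by
      calc (2 + S / R) * ‖w‖ ≤ (c * 2 ^ n) * ‖w‖ :=
            mul_le_mul_of_nonneg_right h1 (norm_nonneg _)
        _ = c * (2 ^ n * ‖w‖) := by ring
        _ ≤ _ := mul_le_mul_of_nonneg_left h4 hc.le
    have h8 : S ≤ S / R * ‖w‖ := by
      conv_lhs => rw [hSR]
      exact mul_le_mul_of_nonneg_left hw hSR0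
    linarith
  have hB : ((fun z => φ z + s) '' A).Finite := hA.image _
  have hmap : ∀ z, Far z → (∀ w ∈ ball z r, R ≤ ‖Φ w‖) ∨
      ∃ b' ∈ (fun z => φ z + s) '' A, MapsTo Φ (ball z r) (ball b' (r / 8)) := by
    intro z hz
    rcases hfar z hz with h | ⟨a, ha, h⟩
    · left
      intro w hw
      have h4 := h w hw
      have h6 := hlow w (hB1.trans h4)
      have h7 : c * B ≤ c * ‖G^[n] w‖ := mul_le_mul_of_nonneg_left h4 hc.le
      linarith
    · right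
      refine ⟨φ a + s, ⟨a, ha, rfl⟩, fun w hw => ?_⟩
      have h4 := h w hw
      rw [mem_ball]
      have h5 : dist (Φ w) (φ a + s) = dist (φ (G^[n] w)) (φ a) := by
        simp [hΦ, dist_add_right]
      rw [h5]
      calc dist (φ (G^[n] w)) (φ a) ≤ Lf * dist (G^[n] w) a := hLf' a ha _ (h4.trans h2)
        _ ≤ Lf * (C * lam ^ (n - m)) := mul_le_mul_of_nonneg_left h4 (by linarith)
        _ < r / 8 := h3
  have hdisc : ∀ b ∈ (fun z => φ z + s) '' A, ∀ w ∈ ball b r, Good Φ w := by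
    intro b hb w hw
    refine attractor hΦd hB hr0 hR hlarge ?_ hb hw
    rintro _ ⟨a, ha, rfl⟩
    exact hmap _ (hAs a ha)
  rcases hv with hv | hv
  · exact Or.inl (esc_of_large hR hlarge hv)
  · apply good_of_map hΦd
    rcases hmap v hv with h | ⟨b', hb', h⟩
    · exact Or.inl (esc_of_large hR hlarge (h v (mem_ball_self hr0)))
    · exact hdisc b' hb' _ (ball_subset_ball (by linarith) (h (mem_ball_self hr0)))

end

end Pool.Agent.Q186.AZ
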