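import Mathlib
import Pool.Agent.Q186.AZ.Uni

/-! Exponential rate for the parameters `s` such that `f (g^n (z)) + s` is not hyperbolic, and the
dimension of the exceptional set (helper186). -/

set_option autoImplicit false

open Topology Filter Metric Set MeasureTheory Polynomial

namespace Pool.Agent.Q186.AZ

open Pool.Agent.H713R5.QJ Pool.Agent.H713R3.ZA Pool.Agent.H400R3.HI

theorem arith {μ : ℝ} (h0 : 0 < μ) (h1 : μ < 1) {q : ℕ} (hq : 1 ≤ q) : ∃ c : ℝ, 0 < c ∧
    ∀ a b : ℝ, 0 ≤ a → 0 ≤ b → ∃ K : ℝ, ∀ n : ℕ, (a + b * n) * μ ^ (n / q) ≤ K * Real.exp (-(c * n)) := by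
  have hl : Real.log μ < 0 := Real.log_neg h0 h1
  have hq0 : (0 : ℝ) < q := by exact_mod_cast hq
  set c : ℝ := -Real.log μ / (2 * q) with hc
  have hc0 : 0 < c := div_pos (by linarith) (by positivity)
  refine ⟨c, hc0, fun a b ha hb => ⟨(a + b / c) / μ, fun n => ?_⟩⟩
  have h2 : (n : ℝ) / q - 1 ≤ ((n / q : ℕ) : ℝ) := by
    have h3 := Nat.lt_div_mul_add (a := n) (b := q) (by omega)
    have h4 : (n : ℝ) < ((n / q : ℕ) : ℝ) * q + q := by exact_mod_cast h3
    rw [sub_le_iff_le_add, div_le_iff₀ hq0]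
    linarith
  have h3 : μ ^ (n / q) ≤ Real.exp (-(2 * (c * n))) / μ := by
    have e1 : μ ^ (n / q) = Real.exp (Real.log μ * ((n / q : ℕ) : ℝ)) := by
      rw [← Real.rpow_natCast, Real.rpow_def_of_pos h0]
    rw [e1, le_div_iff₀ h0]
    conv_lhs => rw [← Real.exp_log h0]
    rw [Real.log_exp, ← Real.exp_add]
    apply Real.exp_le_exp.mpr
    have h4 := mul_le_mul_of_nonpos_left h2 hl.le
    have h5 : -(2 * (c * n)) = Real.log μ * (n / q) := by rw [hc]; field_simp
    rw [h5]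
    linarith
  have h4 : (a + b * n) * Real.exp (-(c * n)) ≤ a + b / c := by
    have h5 := Real.add_one_le_exp (c * n)
    have h6 : Real.exp (-(c * n)) ≤ 1 := Real.exp_le_one_iff.mpr (by
      have : (0 : ℝ) ≤ c * n := by positivity
      linarith)
    have h7 : c * n * Real.exp (-(c * n)) ≤ 1 := by
      calc c * n * Real.exp (-(c * n)) ≤ Real.exp (c * n) * Real.exp (-(c * n)) :=
            mul_le_mul_of_nonneg_right (by linarith) (Real.exp_pos _).le
        _ = 1 := by rw [← Real.exp_add]; simp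
    have h8 : (n : ℝ) * Real.exp (-(c * n)) ≤ 1 / c := by
      rw [le_div_iff₀ hc0]; linarith
    calc (a + b * n) * Real.exp (-(c * n)) = a * Real.exp (-(c * n)) + b * (n * Real.exp (-(c * n))) := by
          ring
      _ ≤ a * 1 + b * (1 / c) := add_le_add (mul_le_mul_of_nonneg_left h6 ha)
          (mul_le_mul_of_nonneg_left h8 hb)
      _ = a + b / c := by ring
  calc (a + b * n) * μ ^ (n / q) ≤ (a + b * n) * (Real.exp (-(2 * (c * n))) / μ) :=
        mul_le_mul_of_nonneg_left h3 (by positivity)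
    _ = ((a + b * n) * Real.exp (-(c * n))) * Real.exp (-(c * n)) / μ := by
        have : Real.exp (-(2 * (c * n))) = Real.exp (-(c * n)) * Real.exp (-(c * n)) := by
          rw [← Real.exp_add]; congr 1; ring
        rw [this]; ring
    _ ≤ (a + b / c) * Real.exp (-(c * n)) / μ := by
        refine div_le_div_of_nonneg_right ?_ h0.le
        exact mul_le_mul_of_nonneg_right h4 (Real.exp_pos _).le
    _ = _ := by ring

theorem rate {g : ℂ[X]} (hg : 2 ≤ g.natDegree) (hyp : Hyp g) : ∃ d : ℝ, 0 ≤ d ∧ d < 2 ∧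
    dimH {z : ℂ | ¬ Good (ev g) z} ≤ ENNReal.ofReal d ∧
    ∃ c : ℝ, 0 < c ∧ ∀ f : ℂ[X], 1 ≤ f.natDegree → ∀ S : ℝ, ∃ K : ℝ, ∀ n : ℕ,
      volume {s ∈ closedBall (0 : ℂ) S | ¬ Hyp (f.comp (g.comp^[n] X) + C s)} ≤
        ENNReal.ofReal (K * Real.exp (-(c * n))) := by
  classical
  have hG := ev_diff g
  obtain ⟨R2, hR2⟩ := two_bound hg
  set Rg : ℝ := max 1 R2 with hRg
  have hRg0 : 0 < Rg := lt_of_lt_of_le one_pos (le_max_left _ _)
  have hGRg := hR2 Rg (le_max_right _ _)
  have hA := sinks_finite hg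
  obtain ⟨P, hP, hAP⟩ := common_period hG hA
  have hAG : ∀ a ∈ sinks (ev g), ev g a ∈ sinks (ev g) := fun a ha => map_sinks hG ha
  have hset : {z | ¬ Good (ev g) z} = {z | ¬ Gd (ev g) (sinks (ev g)) P z} := by
    ext z
    exact not_congr (good_iff hG hP hAP z).symm
  rw [hset]
  set G := ev g with hGdef
  set A := sinks G with hAdef
  have hder : ∀ z, deriv G z = (derivative g).eval z := fun z => Polynomial.deriv _
  have hCeq : {c | deriv G c = 0} = {z : ℂ | (derivative g).eval z = 0} := by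
    ext c; show deriv G c = 0 ↔ _; rw [hder]; rfl
  have hCf : {z : ℂ | (derivative g).eval z = 0}.Finite := crit_finite (by omega)
  have hC : {c | deriv G c = 0}.Finite := by rw [hCeq]; exact hCf
  have hcg : ∀ c, deriv G c = 0 → Gd G A P c := fun c hc =>
    (good_iff hG hP hAP c).mpr (hyp c (by rw [← hder]; exact hc))
  have hAgd : ∀ a ∈ A, Gd G A P a := by
    intro a ha
    refine Or.inr ⟨a, ha, ?_⟩
    have h1 : ∀ k : ℕ, G^[P * k] a = a := fun k => by
      rw [Function.iterate_mul]; exact Function.iterate_fixed (hAP a ha).1 k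
    simp only [h1]
    exact tendsto_const_nhds
  obtain ⟨τ, hτ, d, hd0, hd2, hdim, K₀, hK₀, μ, hμ0, hμ1, m₀, harea⟩ :=
    dim_area hG hRg0 hGRg hA hP hAG hAP hAgd hC hcg
  obtain ⟨ρ, hρ, L, hL1, J, C₁, hC₁, lam, hl0, hl1, hpush⟩ := push hG hRg0 hGRg hP hAG hAP hτ
  obtain ⟨q, hq2, hq3, hqlim⟩ := expo hL1 hl0 hl1
  obtain ⟨c, hc, har⟩ := arith hμ0 hμ1 (q := q) (by omega)
  refine ⟨d, hd0, hd2, hdim, c, hc, fun f hf S => ?_⟩
  have hL0 : 0 < L := by linarith
  have hφ := ev_diff f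
  obtain ⟨cf, hcf, R1, hR1⟩ := lin_bound hf
  set R : ℝ := max Rg R1 with hR
  have hRRg : Rg ≤ R := le_max_left _ _
  have hR0 : 0 < R := hRg0.trans_le hRRg
  have hφR := hR1 R (le_max_right _ _)
  have hGR : ∀ w, R ≤ ‖w‖ → 2 * ‖w‖ ≤ ‖G w‖ := fun w hw => hGRg w (hRRg.trans hw)
  -- Lipschitz constant of `f` near the sinks
  obtain ⟨Lf, hLf1, hLf⟩ : ∃ Lf : ℝ, 1 ≤ Lf ∧ ∀ a ∈ A, ∀ u, dist u a ≤ 1 →
      dist (ev f u) (ev f a) ≤ Lf * dist u a := by
    obtain ⟨B, hB⟩ := hA.isBounded.exists_norm_le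
    obtain ⟨Lf, h1, h2⟩ := lip_cb hφ 0 (B + 1)
    refine ⟨Lf, h1, fun a ha u hu => h2 u ?_ a ?_⟩
    · rw [mem_closedBall_zero_iff]
      rw [dist_eq_norm] at hu
      have := norm_add_le (u - a) a
      rw [sub_add_cancel] at this
      linarith [hB a ha]
    · rw [mem_closedBall_zero_iff]
      linarith [hB a ha]
  -- the marked values
  set V₀ : Finset ℂ := (crit_finite hf).toFinset.image (fun y => f.eval y) ∪
    hA.toFinset.image (fun a => f.eval a) with hV₀
  set V : ℕ → Finset ℂ := fun n => V₀ ∪ (Finset.Icc 1 n).biUnion fun k =>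
    hCf.toFinset.image fun z => f.eval (G^[k] z) with hV
  have hVcard : ∀ n : ℕ, ((V n).card : ℝ) ≤ V₀.card + hCf.toFinset.card * n := by
    intro n
    have h1 : (V n).card ≤ V₀.card + n * hCf.toFinset.card := by
      refine (Finset.card_union_le _ _).trans (Nat.add_le_add_left ?_ _)
      refine Finset.card_biUnion_le.trans ?_
      refine (Finset.sum_le_card_nsmul _ _ _ fun k _ => Finset.card_image_le).trans ?_
      rw [Nat.card_Icc, smul_eq_mul, Nat.add_sub_cancel]
    have h2 : ((V n).card : ℝ) ≤ V₀.card + n * hCf.toFinset.card := by exact_mod_cast h1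
    linarith
  -- large `n`
  have t1 : Tendsto (fun n : ℕ => n - n / q) atTop atTop := by
    refine tendsto_atTop.mpr fun b => ?_
    filter_upwards [eventually_ge_atTop (3 * b)] with n hn
    have := hq3 n
    omega
  have t2 : Tendsto (fun n : ℕ => n / q) atTop atTop := Nat.tendsto_div_const_atTop (by omega)
  have t3 : Tendsto (fun n : ℕ => (2 : ℝ) ^ (n - (n / q + J)) * Rg) atTop atTop := by
    refine Tendsto.atTop_mul_const hRg0 ?_
    refine (tendsto_pow_atTop_atTop_of_one_lt (by norm_num : (1 : ℝ) < 2)).comp ?_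
    refine tendsto_atTop.mpr fun b => ?_
    filter_upwards [t1.eventually_ge_atTop (b + J)] with n hn
    omega
  have t4 : Tendsto (fun n : ℕ => cf * (2 : ℝ) ^ n) atTop atTop :=
    (tendsto_pow_atTop_atTop_of_one_lt (by norm_num : (1 : ℝ) < 2)).const_mul_atTop hcf
  have t5 : Tendsto (fun n : ℕ => C₁ * lam ^ (n - n / q)) atTop (𝓝 0) := by
    have := ((tendsto_pow_atTop_nhds_zero_of_lt_one hl0.le hl1).comp t1).const_mul C₁
    rw [mul_zero] at this
    exact this
  have t6 : Tendsto (fun n : ℕ => 8 * Lf * C₁ * (L ^ (n / q) * lam ^ (n - n / q))) atTop (𝓝 0) := by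
    have := hqlim.const_mul (8 * Lf * C₁)
    rwa [mul_zero] at this
  have hev : ∀ᶠ n : ℕ in atTop, (n / q + J ≤ n ∧ m₀ ≤ n / q) ∧
      (R ≤ 2 ^ (n - (n / q + J)) * Rg ∧ (R + S) / cf ≤ 2 ^ (n - (n / q + J)) * Rg) ∧
      2 + S / R ≤ cf * 2 ^ n ∧ C₁ * lam ^ (n - n / q) ≤ 1 ∧
      8 * Lf * C₁ * (L ^ (n / q) * lam ^ (n - n / q)) < ρ := by
    filter_upwards [t1.eventually_ge_atTop J, t2.eventually_ge_atTop m₀,
      t3.eventually_ge_atTop R, t3.eventually_ge_atTop ((R + S) / cf),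
      t4.eventually_ge_atTop (2 + S / R), t5.eventually (ge_mem_nhds one_pos),
      t6.eventually (gt_mem_nhds hρ)] with n h1 h2 h3 h4 h5 h6 h7
    have : n / q ≤ n := Nat.div_le_self n q
    exact ⟨⟨by omega, h2⟩, ⟨h3, h4⟩, h5, h6, h7⟩
  obtain ⟨n₁, hn₁⟩ := Filter.eventually_atTop.mp hev
  -- the inclusion
  have hincl : ∀ n, n₁ ≤ n → {s ∈ closedBall (0 : ℂ) S | ¬ Hyp (f.comp (g.comp^[n] X) + C s)} ⊆
      ⋃ v ∈ V n, {s : ℂ | ∃ w, ¬ Gd G A P w ∧ dist (G^[n / q] (v + s)) w < τ} := by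
    intro n hn s hs
    obtain ⟨hsS, hsH⟩ := hs
    rw [mem_closedBall_zero_iff] at hsS
    by_contra hcon
    obtain ⟨⟨h1, h2⟩, ⟨h3, h4⟩, h5, h6, h7⟩ := hn₁ n hn
    have hfar : ∀ v ∈ V n, ∀ y, ¬ Gd G A P y → τ ≤ dist (G^[n / q] (v + s)) y := by
      intro v hv y hy
      by_contra hlt
      exact hcon (mem_iUnion₂.mpr ⟨v, hv, y, hy, not_le.mp hlt⟩)
    have h3' : Lf * (C₁ * lam ^ (n - n / q)) < ρ / L ^ (n / q) / 8 := by
      rw [div_div, lt_div_iff₀ (by positivity)]
      calc Lf * (C₁ * lam ^ (n - n / q)) * (L ^ (n / q) * 8)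
          = 8 * Lf * C₁ * (L ^ (n / q) * lam ^ (n - n / q)) := by ring
        _ < ρ := h7
    have hgoodv : ∀ v ∈ V n, Good ((fun z => ev f z + s) ∘ G^[n]) (v + s) := by
      intro v hv
      refine uni_one (R := R) (c := cf) (A := A) hG hφ hR0 hcf hGR hφR hA hρ hL1
        (Far := fun z => ∀ y, ¬ Gd G A P y → τ ≤ dist (G^[n / q] z) y)
        (fun z hz => hpush (n / q) z hz n h1) h3 ?_ h5 hLf1 hLf h6 h3' hsS ?_ (Or.inr (hfar v hv))
      · rwa [div_le_iff₀ hcf, mul_comm] at h4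
      · intro a ha
        refine hfar (f.eval a) ?_
        rw [hV]
        refine Finset.mem_union_left _ (Finset.mem_union_right _ ?_)
        exact Finset.mem_image_of_mem _ (hA.mem_toFinset.mpr ha)
    apply hsH
    intro x hx
    have hev' : ev (f.comp (g.comp^[n] X) + C s) = (fun z => ev f z + s) ∘ G^[n] := by
      funext z
      have := congrFun (ev_comp f g n) z
      show (f.comp (g.comp^[n] X) + C s).eval z = _
      rw [eval_add, eval_C]
      have h8 : (f.comp (g.comp^[n] X)).eval z = (ev f ∘ (ev g)^[n]) z := this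
      rw [h8]
      rfl
    rw [hev']
    have hΦd : Differentiable ℂ ((fun z => ev f z + s) ∘ G^[n]) :=
      (hφ.add_const s).comp (hG.iterate n)
    apply good_of_map hΦd
    have hx' : deriv ((fun z => ev f z + s) ∘ G^[n]) x = 0 := by
      rw [← hev']
      have : deriv (ev (f.comp (g.comp^[n] X) + C s)) x =
          (derivative (f.comp (g.comp^[n] X) + C s)).eval x := Polynomial.deriv _
      rw [this, hx]
    have hdf : ∀ z, deriv (fun z => ev f z + s) z = (derivative f).eval z := by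
      intro z
      rw [deriv_add_const]
      exact Polynomial.deriv _
    rw [deriv_comp _ ((hφ.add_const s) _) ((hG.iterate n) _), mul_eq_zero, hdf] at hx'
    rcases hx' with h | h
    · refine hgoodv (f.eval (G^[n] x)) ?_
      rw [hV]
      refine Finset.mem_union_left _ (Finset.mem_union_left _ ?_)
      exact Finset.mem_image_of_mem (fun y => f.eval y) ((crit_finite hf).mem_toFinset.mpr h)
    · obtain ⟨j, hj, h8⟩ := exists_crit_iter hG n h
      have h9 : (derivative g).eval (G^[j] x) = 0 := by rw [← hder]; exact h8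
      have h10 := hgoodv (f.eval (G^[n - j] (G^[j] x))) (by
        rw [hV]
        refine Finset.mem_union_right _ (Finset.mem_biUnion.mpr ⟨n - j, ?_, ?_⟩)
        · rw [Finset.mem_Icc]; omega
        · exact Finset.mem_image_of_mem (fun z => f.eval (G^[n - j] z)) (hCf.mem_toFinset.mpr h9))
      rw [← Function.iterate_add_apply, show n - j + j = n by omega] at h10
      exact h10
  -- the areas
  obtain ⟨K₁, hK₁⟩ := har (V₀.card * K₀) (hCf.toFinset.card * K₀) (by positivity) (by positivity)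
  set K₂ : ℝ := (volume (closedBall (0 : ℂ) S)).toReal * Real.exp (c * n₁) with hK₂
  refine ⟨max K₁ K₂, fun n => ?_⟩
  rcases lt_or_ge n n₁ with hn | hn
  · have h1 : volume {s ∈ closedBall (0 : ℂ) S | ¬ Hyp (f.comp (g.comp^[n] X) + C s)} ≤
        volume (closedBall (0 : ℂ) S) := measure_mono fun s hs => hs.1
    refine h1.trans ?_
    rw [← ENNReal.ofReal_toReal (measure_closedBall_lt_top (μ := volume) (x := (0 : ℂ)) (r := S)).ne]
    refine ENNReal.ofReal_le_ofReal ?_
    have h2 : (volume (closedBall (0 : ℂ) S)).toReal ≤ K₂ * Real.exp (-(c * n)) := by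
      rw [hK₂, mul_assoc, ← Real.exp_add]
      refine le_mul_of_one_le_right ENNReal.toReal_nonneg (Real.one_le_exp ?_)
      have : (n : ℝ) ≤ n₁ := by exact_mod_cast hn.le
      nlinarith
    exact h2.trans (mul_le_mul_of_nonneg_right (le_max_right _ _) (Real.exp_pos _).le)
  · refine (measure_mono (hincl n hn)).trans ((measure_biUnion_finset_le (V n) _).trans ?_)
    have h1 : ∀ v ∈ V n, volume {s : ℂ | ∃ w, ¬ Gd G A P w ∧ dist (G^[n / q] (v + s)) w < τ} ≤
        ENNReal.ofReal (K₀ * μ ^ (n / q)) := by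
      intro v _
      refine le_trans (le_of_eq ?_) (harea (n / q) (hn₁ n hn).1.2)
      exact measure_preimage_add volume v {z : ℂ | ∃ w, ¬ Gd G A P w ∧ dist (G^[n / q] z) w < τ}
    refine (Finset.sum_le_sum h1).trans ?_
    rw [Finset.sum_const, nsmul_eq_mul, ← ENNReal.ofReal_natCast,
      ← ENNReal.ofReal_mul (Nat.cast_nonneg _)]
    refine ENNReal.ofReal_le_ofReal ?_
    calc ((V n).card : ℝ) * (K₀ * μ ^ (n / q))
        ≤ (V₀.card + hCf.toFinset.card * n) * (K₀ * μ ^ (n / q)) :=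
          mul_le_mul_of_nonneg_right (hVcard n) (by positivity)
      _ = (V₀.card * K₀ + hCf.toFinset.card * K₀ * n) * μ ^ (n / q) := by ring
      _ ≤ K₁ * Real.exp (-(c * n)) := hK₁ n
      _ ≤ _ := mul_le_mul_of_nonneg_right (le_max_left _ _) (Real.exp_pos _).le

/-- the dimension of the exceptional set -/
theorem dim_exc {g : ℂ[X]} (hg : 2 ≤ g.natDegree) (hyp : Hyp g) {f : ℂ[X]} (hf : 1 ≤ f.natDegree) :
    dimH {s : ℂ | ¬ ∀ᶠ n : ℕ in atTop, Hyp (f.comp (g.comp^[n] X) + C s)} ≤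
      dimH {z : ℂ | ¬ Good (ev g) z} := by
  have hsub : {s : ℂ | ¬ ∀ᶠ n : ℕ in atTop, Hyp (f.comp (g.comp^[n] X) + C s)} ⊆
      ⋃ m ∈ Mk f g, (IsometryEquiv.addLeft m) ⁻¹' {z : ℂ | ¬ Good (ev g) z} := by
    intro s hs
    by_contra hcon
    apply hs
    have h1 : ∀ m ∈ Mk f g, Good (ev g) (m + s) := by
      intro m hm
      by_contra hb
      exact hcon (mem_iUnion₂.mpr ⟨m, hm, hb⟩)
    have hf' : 1 ≤ (f + C s).natDegree := by rwa [natDegree_add_C]
    have h2 := main hg hyp hf' fun m hm => by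
      have := h1 _ (mk_add_C f g s hm)
      rwa [sub_add_cancel] at this
    filter_upwards [h2] with n hn
    rwa [add_comp, C_comp] at hn
  refine (dimH_mono hsub).trans ?_
  rw [dimH_bUnion (mk_countable hg hf)]
  refine iSup₂_le fun m _ => ?_
  rw [IsometryEquiv.dimH_preimage]

end Pool.Agent.Q186.AZ
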